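import Mathlib
import Pool.Agent.TH661.LRS.Lift

/-!
No small positive semidefinite factorisation of the matrices `(S, x) ↦ g S (x restricted to S)`,
where all `g S` are negative for a density of absolute value at most `2 ^ m` which is nonnegative on
squares of degree `t`.
-/

namespace Pool.Agent.TH661.LRS

open Finset Matrix

variable {m b : ℕ} {κ : Type*} [Fintype κ] [DecidableEq κ]

set_option maxHeartbeats 2000000 in
/-- No approximate factorisation of small size. -/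
theorem no_fact_exp (t l w E j : ℕ) (ht : 1 ≤ t) (hm : 1 ≤ m)
    (D : (Fin m → Bool) → ℝ)
    (hD3 : ∀ g : (Fin m → Bool) → ℝ, Dg t g → 0 ≤ ∑ y, D y * g y ^ 2)
    (hD4 : ∀ y, |D y| ≤ 2 ^ m)
    (g : (Fin m → Fin b) → (Fin m → Bool) → ℝ) (G ε : ℝ) (hε : 0 < ε) (hGE : G ≤ 2 ^ E * ε) (hεG : ε ≤ G)
    (hgG : ∀ S y, g S y ≤ G) (hD2 : ∀ S, ∑ y, D y * g S y ≤ -(ε * 2 ^ m))
    (hw : 2 * m + 2 * E + 19 ≤ w * t) (hj : m + 4 + E ≤ 2 * j)
    (hb : 2 ^ (l + w) * ((2 ^ j * (l * t + m + 7 + E)) * m) ≤ b)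
    (hr : Fintype.card κ ≤ 2 ^ (l * t))
    (P : (Fin m → Fin b) → Matrix κ κ ℝ) (hP : ∀ S, (P S).PosSemidef)
    (Q : (Fin m × Fin b → Bool) → Matrix κ κ ℝ) (hQ : ∀ x, (Q x).PosSemidef)
    (hfac : ∀ S x, |(P S * Q x).trace - g S (res S x)| ≤ ε / (4 * 2 ^ m)) :
    False := by
  have hG0 : 0 < G := lt_of_lt_of_le hε hεG
  set Lp : ℕ := l * t + m + 7 + E with hLp
  have hb0 : 0 < b := lt_of_lt_of_le (by positivity) hb
  have hbR : (0 : ℝ) < b := by exact_mod_cast hb0
  set Δ : ℝ := 2 ^ m with hΔdef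
  have hΔ1 : 1 ≤ Δ := one_le_pow₀ (by norm_num)
  have hΔ0 : 0 < Δ := by linarith
  have hDΔ : ∀ y, |D y| ≤ Δ := hD4
  set r : ℝ := (Fintype.card κ : ℝ) with hrdef
  have hr0 : 0 ≤ r := by positivity
  have hrle : r ≤ 2 ^ (l * t) := by rw [hrdef]; exact_mod_cast hr
  set δ : ℝ := ε / (4 * 2 ^ m) with hδ
  have hδ0 : 0 < δ := by positivity
  have hΔδ : Δ * δ = ε / 4 := by
    rw [hδ, hΔdef]; field_simp
  have hδle : δ ≤ ε / 4 := by
    rw [← hΔδ]; nlinarith
  set Nb : ℝ := (b : ℝ) ^ m with hNb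
  have hNb0 : 0 < Nb := by positivity
  set M : ℝ := 2 ^ (m * b) with hM
  have hM0 : 0 < M := by positivity
  have hcardS : ((univ : Finset (Fin m → Fin b)).card : ℝ) = Nb := by
    rw [Finset.card_univ, Fintype.card_fun, Fintype.card_fin, Fintype.card_fin]
    push_cast
    rfl
  have hcardX : ((univ : Finset (Fin m × Fin b → Bool)).card : ℝ) = M := by
    rw [Finset.card_univ, Fintype.card_fun, Fintype.card_bool, Fintype.card_prod,
      Fintype.card_fin, Fintype.card_fin]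
    push_cast
    rfl
  have h2m : (0 : ℝ) < 2 ^ m := by positivity
  -- normalise
  set e0 : ℝ := ε / (4 * (1 + ∑ x, (Q x).trace)) with he0
  have hQtr : ∀ x, 0 ≤ (Q x).trace := fun x => (hQ x).trace_nonneg
  have hQs : 0 ≤ ∑ x, (Q x).trace := Finset.sum_nonneg fun x _ => hQtr x
  have he00 : 0 < e0 := by positivity
  have hεQ : ∀ x, e0 * (Q x).trace ≤ ε / 4 := by
    intro x
    have : (Q x).trace ≤ ∑ x, (Q x).trace :=
      Finset.single_le_sum (fun x _ => hQtr x) (Finset.mem_univ x)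
    rw [he0, div_mul_eq_mul_div, div_le_div_iff₀ (by positivity) (by norm_num)]
    nlinarith
  obtain ⟨B, P', hP'psd, hP'sum, hP'tr, hQ'tr⟩ := normalize P hP Nb e0 hNb0 he00
  set Q' : (Fin m × Fin b → Bool) → Matrix κ κ ℝ := fun x => B * Q x * Bᵀ with hQ'
  have hQ'psd : ∀ x, (Q' x).PosSemidef := by
    intro x
    have := (hQ x).mul_mul_conjTranspose_same B
    rwa [Matrix.conjTranspose_eq_transpose_of_trivial] at this
  have hPQ : ∀ S x, (P S * Q x).trace ≤ G + ε / 4 := by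
    intro S x
    have h1 := (abs_le.1 (hfac S x)).2
    have h2 := hgG S (res S x)
    linarith
  have hQ'le : ∀ x, (Q' x).trace ≤ 2 * G := by
    intro x
    have e := hQ'tr (Q x)
    have h2 : ∑ S, (P S * Q x).trace ≤ Nb * (G + ε / 4) := by
      calc ∑ S, (P S * Q x).trace ≤ ∑ _S : Fin m → Fin b, (G + ε / 4) :=
            Finset.sum_le_sum fun S _ => hPQ S x
        _ = _ := by rw [Finset.sum_const, nsmul_eq_mul, hcardS]
    have h3 : Nb * (Q' x).trace ≤ Nb * (G + ε / 4 + ε / 4) := by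
      have h4 := mul_le_mul_of_nonneg_left (hεQ x) hNb0.le
      have h5 : Nb * (Q' x).trace = ∑ s, (P s * Q x).trace + Nb * (e0 * (Q x).trace) := e
      rw [h5]
      linarith
    have h6 := le_of_mul_le_mul_left h3 hNb0
    linarith
  have hQ'sum : ∑ x, (Q' x).trace ≤ (2 * G) * M := by
    calc ∑ x, (Q' x).trace ≤ ∑ _x : Fin m × Fin b → Bool, (2 * G) :=
          Finset.sum_le_sum fun x _ => hQ'le x
      _ = _ := by rw [Finset.sum_const, nsmul_eq_mul, hcardX]; ring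
  -- drop the heavy `S`
  set P'' : (Fin m → Fin b) → Matrix κ κ ℝ :=
    fun S => if (P' S).trace ≤ 2 * r then P' S else 0 with hP''
  have hP''psd : ∀ S, (P'' S).PosSemidef := by
    intro S
    simp only [hP'']
    split_ifs
    · exact hP'psd S
    · exact Matrix.PosSemidef.zero
  have hP''tr : ∀ S, (P'' S).trace ≤ 2 * Fintype.card κ := by
    intro S
    simp only [hP'']
    split_ifs with hh
    · exact hh
    · rw [Matrix.trace_zero]; positivity
  have hP''sum : (Nb • (1 : Matrix κ κ ℝ) - ∑ S, P'' S).PosSemidef := by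
    have e : Nb • (1 : Matrix κ κ ℝ) - ∑ S, P'' S
        = (Nb • (1 : Matrix κ κ ℝ) - ∑ S, P' S) + ∑ S, (P' S - P'' S) := by
      rw [Finset.sum_sub_distrib]; abel
    rw [e]
    refine hP'sum.add (Matrix.posSemidef_sum _ fun S _ => ?_)
    simp only [hP'']
    split_ifs
    · rw [sub_self]; exact Matrix.PosSemidef.zero
    · rw [sub_zero]; exact hP'psd S
  have hheavy : ((univ.filter fun S : Fin m → Fin b => ¬ (P' S).trace ≤ 2 * r).card : ℝ)
      ≤ Nb / 2 := by
    have h2 : ∑ S, (P' S).trace ≤ Nb * r := by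
      have := hP'sum.trace_nonneg
      rw [Matrix.trace_sub, Matrix.trace_smul, Matrix.trace_one, Matrix.trace_sum,
        smul_eq_mul] at this
      linarith
    have h3 : ∑ S ∈ univ.filter (fun S : Fin m → Fin b => ¬ (P' S).trace ≤ 2 * r), (2 * r)
        ≤ ∑ S, (P' S).trace := by
      calc _ ≤ ∑ S ∈ univ.filter (fun S : Fin m → Fin b => ¬ (P' S).trace ≤ 2 * r),
            (P' S).trace := by
            refine Finset.sum_le_sum fun S hS => ?_
            rw [Finset.mem_filter] at hS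
            exact (not_le.1 hS.2).le
        _ ≤ _ := Finset.sum_le_sum_of_subset_of_nonneg (Finset.filter_subset _ _)
            fun S _ _ => (hP'psd S).trace_nonneg
    rw [Finset.sum_const, nsmul_eq_mul] at h3
    rcases hr0.lt_or_eq with hpos | hzero
    · have h4 : ((univ.filter fun S : Fin m → Fin b => ¬ (P' S).trace ≤ 2 * r).card : ℝ) * (2 * r)
          ≤ (Nb / 2) * (2 * r) := by linarith
      exact le_of_mul_le_mul_right h4 (by positivity)
    · have hemp : IsEmpty κ := by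
        rw [← Fintype.card_eq_zero_iff]
        have : ((Fintype.card κ : ℕ) : ℝ) = 0 := by rw [← hrdef]; exact hzero.symm
        exact_mod_cast this
      have : (univ.filter fun S : Fin m → Fin b => ¬ (P' S).trace ≤ 2 * r) = ∅ := by
        refine Finset.filter_eq_empty_iff.2 fun S _ => ?_
        rw [not_not, Matrix.trace, Finset.univ_eq_empty, Finset.sum_empty]
        positivity
      rw [this]
      simp only [Finset.card_empty, Nat.cast_zero]
      positivity
  have hlight : Nb / 2 ≤ ((univ.filter fun S : Fin m → Fin b => (P' S).trace ≤ 2 * r).card : ℝ) := by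
    have e := Finset.card_filter_add_card_filter_not (s := (univ : Finset (Fin m → Fin b)))
      (fun S => (P' S).trace ≤ 2 * r)
    have e2 : ((univ.filter fun S : Fin m → Fin b => (P' S).trace ≤ 2 * r).card : ℝ)
        + ((univ.filter fun S : Fin m → Fin b => ¬ (P' S).trace ≤ 2 * r).card : ℝ) = Nb := by
      rw [← hcardS]; exact_mod_cast e
    linarith
  have hnegS : ∀ S, ∑ x, D (res S x) * (P S * Q x).trace ≤ -(ε / 2) * M := by
    intro S
    have hb1 : ∀ x, D (res S x) * (P S * Q x).trace ≤ D (res S x) * g S (res S x) + ε / 4 := by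
      intro x
      have e : D (res S x) * (P S * Q x).trace = D (res S x) * g S (res S x)
          + D (res S x) * ((P S * Q x).trace - g S (res S x)) := by ring
      rw [e]
      have h2 : |D (res S x) * ((P S * Q x).trace - g S (res S x))| ≤ Δ * δ := by
        rw [abs_mul]
        exact mul_le_mul (hDΔ _) (hfac S x) (abs_nonneg _) hΔ0.le
      have h3 := le_abs_self (D (res S x) * ((P S * Q x).trace - g S (res S x)))
      linarith
    have e1 : ∑ x, D (res S x) * g S (res S x) ≤ -(ε * M) := by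
      have e := sum_res S fun y => D y * g S y
      have h3 : (2 : ℝ) ^ m * ∑ x, D (res S x) * g S (res S x) ≤ 2 ^ m * (-(ε * M)) := by
        rw [e]
        calc (2 : ℝ) ^ (m * b) * ∑ y, D y * g S y ≤ 2 ^ (m * b) * (-(ε * 2 ^ m)) :=
              mul_le_mul_of_nonneg_left (hD2 S) (by positivity)
          _ = _ := by rw [hM]; ring
      exact le_of_mul_le_mul_left h3 h2m
    calc ∑ x, D (res S x) * (P S * Q x).trace
        ≤ ∑ x, (D (res S x) * g S (res S x) + ε / 4) := Finset.sum_le_sum fun x _ => hb1 x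
      _ ≤ -(ε * M) + M * (ε / 4) := by
          rw [Finset.sum_add_distrib, Finset.sum_const, nsmul_eq_mul, hcardX]
          linarith
      _ ≤ _ := by nlinarith
  have hneg : ∑ S, ∑ x, D (res S x) * (P'' S * Q' x).trace ≤ -(ε / 4 * Nb * M) := by
    have e : ∀ S, ∑ x, D (res S x) * (P'' S * Q' x).trace
        ≤ (if (P' S).trace ≤ 2 * r then 1 else 0) * (-(ε / 2) * M) := by
      intro S
      simp only [hP'']
      split_ifs
      · rw [one_mul]
        simp only [hQ', hP'tr]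
        exact hnegS S
      · simp
    calc _ ≤ ∑ S, (if (P' S).trace ≤ 2 * r then 1 else 0) * (-(ε / 2) * M) :=
          Finset.sum_le_sum fun S _ => e S
      _ = ((univ.filter fun S : Fin m → Fin b => (P' S).trace ≤ 2 * r).card : ℝ)
          * (-(ε / 2) * M) := by rw [← Finset.sum_mul, Finset.sum_boole]
      _ ≤ (Nb / 2) * (-(ε / 2) * M) :=
          mul_le_mul_of_nonpos_right hlight (by nlinarith)
      _ = _ := by ring
  -- the filter
  set c : ℝ := ε / (16 * G) with hc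
  have hc0 : 0 < c := by positivity
  have hc1 : c ≤ 1 := by
    rw [hc, div_le_one (by positivity)]; linarith
  have hcE : (1 : ℝ) ≤ 2 ^ (E + 4) * c := by
    rw [hc, mul_div_assoc', le_div_iff₀ (by positivity), pow_add]
    nlinarith
  have hJc : Δ + c / 2 ≤ 4 * (c / 2) * ((2 ^ j : ℕ) : ℝ) ^ 2 := by
    have h1 : (2 : ℝ) ^ (m + 4 + E) ≤ 2 ^ (2 * j) := pow_le_pow_right₀ (by norm_num) hj
    have h2 : (((2 ^ j : ℕ) : ℝ)) ^ 2 = 2 ^ (2 * j) := by
      push_cast
      rw [← pow_mul, mul_comm]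
    rw [h2]
    have h3 : Δ ≤ c * 2 ^ (2 * j) := by
      calc Δ = Δ * 1 := (mul_one _).symm
        _ ≤ Δ * (2 ^ (E + 4) * c) := mul_le_mul_of_nonneg_left hcE hΔ0.le
        _ = c * 2 ^ (m + 4 + E) := by rw [hΔdef]; ring
        _ ≤ _ := mul_le_mul_of_nonneg_left h1 hc0.le
    linarith
  obtain ⟨p, hpK, hp1, hp2⟩ := cheb (2 ^ j) Lp (c / 2) Δ (by positivity) hΔ0 hJc
  set α : ℝ := c / (16 * Δ) with hα
  have hα0 : 0 < α := by positivity
  set q : ℝ := 2 ^ (l + w) with hq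
  have hqge : 1 ≤ q := one_le_pow₀ (by norm_num)
  set γ : ℝ := Real.exp ((q - 1) * ((2 ^ j * Lp * m : ℕ) : ℝ) / b) / q ^ (t + 1) with hγ
  have hγ0 : 0 ≤ γ := by positivity
  have hexp : Real.exp ((q - 1) * ((2 ^ j * Lp * m : ℕ) : ℝ) / b) ≤ 4 := by
    have h2 : (q - 1) * ((2 ^ j * Lp * m : ℕ) : ℝ) / b ≤ 1 := by
      rw [div_le_one hbR]
      have h3 : q * ((2 ^ j * Lp * m : ℕ) : ℝ) ≤ b := by
        rw [hq]; exact_mod_cast hb
      have h4 : (0 : ℝ) ≤ ((2 ^ j * Lp * m : ℕ) : ℝ) := by positivity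
      nlinarith
    have h6 : Real.exp 1 < 2.7182818286 := Real.exp_one_lt_d9
    have h7 := Real.exp_le_exp.2 h2
    linarith
  have hrγ : r * γ * (2 ^ 9 * Δ ^ 2) ≤ c ^ 2 := by
    have h3 : γ ≤ 4 / q ^ (t + 1) := by
      rw [hγ]
      exact div_le_div_of_nonneg_right hexp (by positivity)
    have h4 : r * γ ≤ 2 ^ (l * t) * (4 / q ^ (t + 1)) :=
      mul_le_mul hrle h3 hγ0 (by positivity)
    have h5 : (2 : ℝ) ^ (l * t + 2 * m + 2 * E + 19) ≤ q ^ (t + 1) := by
      rw [hq, ← pow_mul]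
      refine pow_le_pow_right₀ (by norm_num) ?_
      have : (l + w) * (t + 1) = l * t + l + w * t + w := by ring
      omega
    have h6 : (1 : ℝ) ≤ 2 ^ (2 * (E + 4)) * c ^ 2 := by
      have h7 := pow_le_pow_left₀ (by norm_num) hcE 2
      rw [one_pow, mul_pow, ← pow_mul, mul_comm (E + 4) 2] at h7
      exact h7
    have h8 : (2 : ℝ) ^ (l * t) * (4 / q ^ (t + 1)) * (2 ^ 9 * Δ ^ 2) * 2 ^ (2 * (E + 4)) ≤ 1 := by
      rw [show (2 : ℝ) ^ (l * t) * (4 / q ^ (t + 1)) * (2 ^ 9 * Δ ^ 2) * 2 ^ (2 * (E + 4))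
        = 2 ^ (l * t + 2 * m + 2 * E + 19) / q ^ (t + 1) by rw [hΔdef]; ring]
      rw [div_le_one (by positivity)]
      exact h5
    have h9 : 0 ≤ r * γ * (2 ^ 9 * Δ ^ 2) := by positivity
    calc r * γ * (2 ^ 9 * Δ ^ 2) ≤ r * γ * (2 ^ 9 * Δ ^ 2) * (2 ^ (2 * (E + 4)) * c ^ 2) :=
          le_mul_of_one_le_right h9 h6
      _ ≤ 2 ^ (l * t) * (4 / q ^ (t + 1)) * (2 ^ 9 * Δ ^ 2) * (2 ^ (2 * (E + 4)) * c ^ 2) := by
          gcongr
      _ = (2 ^ (l * t) * (4 / q ^ (t + 1)) * (2 ^ 9 * Δ ^ 2) * 2 ^ (2 * (E + 4))) * c ^ 2 := by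
          ring
      _ ≤ 1 * c ^ 2 := mul_le_mul_of_nonneg_right h8 (by positivity)
      _ = c ^ 2 := one_mul _
  refine core_abs (κ := κ) t (2 ^ j * Lp) hb0 D Δ α (ε / 4) c (2 * G) (2 * G) γ
    (2 ^ Lp / 2) hD3 hDΔ hΔ0 hα0 hc0 (by positivity) (by positivity) (by positivity) hγ0 P''
    hP''psd hP''sum hP''tr Q' hQ'psd hQ'le hQ'sum hneg ?_ p hpK ?_ ?_ ?_ ?_ ?_
  · -- c q ≤ a / 2
    rw [hc]
    apply le_of_eq
    field_simp
    norm_num
  · exact hp1
  · intro x hx
    exact hp2 x (by linarith)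
  · -- N1
    have h3 : (Δ + c / 2) ≤ 2 * Δ := by linarith
    have h4 : (Δ + c / 2) * r * (8 * Δ * (2 * G)) ≤ 2 ^ (l * t) * (32 * Δ ^ 2 * G) := by
      calc (Δ + c / 2) * r * (8 * Δ * (2 * G)) ≤ (2 * Δ) * 2 ^ (l * t) * (8 * Δ * (2 * G)) := by
            gcongr
        _ = _ := by ring
    refine h4.trans ?_
    have h5 : c * (2 ^ Lp / 2) ^ 2 * (ε / 4) = 2 ^ (2 * Lp) * c ^ 2 * G := by
      have : ε = 16 * G * c := by rw [hc]; field_simp
      rw [this]
      ring
    rw [h5]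
    have h6 : (1 : ℝ) ≤ 2 ^ (2 * (E + 4)) * c ^ 2 := by
      have h7 := pow_le_pow_left₀ (by norm_num) hcE 2
      rw [one_pow, mul_pow, ← pow_mul, mul_comm (E + 4) 2] at h7
      exact h7
    have h7 : (2 : ℝ) ^ (l * t) * (32 * Δ ^ 2) ≤ 2 ^ (2 * Lp) * c ^ 2 := by
      have h8 : (2 : ℝ) ^ (l * t + 2 * m + 5 + 2 * (E + 4)) ≤ 2 ^ (2 * Lp) := by
        refine pow_le_pow_right₀ (by norm_num) ?_
        rw [hLp]
        have : 0 ≤ l * t := Nat.zero_le _
        omega
      calc (2 : ℝ) ^ (l * t) * (32 * Δ ^ 2)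
          ≤ (2 : ℝ) ^ (l * t) * (32 * Δ ^ 2) * (2 ^ (2 * (E + 4)) * c ^ 2) :=
            le_mul_of_one_le_right (by positivity) h6
        _ = 2 ^ (l * t + 2 * m + 5 + 2 * (E + 4)) * c ^ 2 := by
            rw [hΔdef]
            ring
        _ ≤ _ := mul_le_mul_of_nonneg_right h8 (by positivity)
    calc (2 : ℝ) ^ (l * t) * (32 * Δ ^ 2 * G) = (2 ^ (l * t) * (32 * Δ ^ 2)) * G := by ring
      _ ≤ (2 ^ (2 * Lp) * c ^ 2) * G := mul_le_mul_of_nonneg_right h7 hG0.le
  · intro T hT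
    have h2 := count_cap t (2 ^ j * Lp * m) hb0 q hqge T hT
    rw [hγ, div_mul_eq_mul_div, le_div_iff₀ (by positivity)]
    linarith
  · -- N3
    have h1α : 1 + 1 / α ≤ 2 / α := by
      have : α ≤ 1 := by
        rw [hα, div_le_one (by positivity)]
        linarith
      have h2 : 1 ≤ 1 / α := by rw [le_div_iff₀ hα0]; linarith
      have h3 : 2 / α = 1 / α + 1 / α := by ring
      linarith
    have h2 : Δ * (α + (1 + 1 / α) * (2 * r * γ)) ≤ Δ * (α + 2 / α * (2 * r * γ)) := by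
      refine mul_le_mul_of_nonneg_left ?_ hΔ0.le
      have := mul_le_mul_of_nonneg_right h1α (by positivity : 0 ≤ 2 * r * γ)
      linarith
    refine lt_of_le_of_lt h2 ?_
    have h3 : Δ * (α + 2 / α * (2 * r * γ)) = c / 16 + 64 * Δ ^ 2 * (r * γ) / c := by
      rw [hα]; field_simp; ring
    rw [h3]
    have h4 : 64 * Δ ^ 2 * (r * γ) / c ≤ c / 8 := by
      rw [div_le_iff₀ hc0]
      have h5 : 64 * Δ ^ 2 * (r * γ) = r * γ * (2 ^ 9 * Δ ^ 2) / 8 := by ring
      rw [h5]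
      have : c / 8 * c = c ^ 2 / 8 := by ring
      rw [this]
      linarith
    linarith

/-- The lower bound for semidefinite programs whose feasible region is a union of pieces. -/
theorem union_bound_exp {r : ℕ} {I : Type*} [Fintype I] [DecidableEq I] (t l w E j : ℕ)
    (ht : 1 ≤ t) (hm : 1 ≤ m) (D : (Fin m → Bool) → ℝ)
    (hD3 : ∀ g : (Fin m → Bool) → ℝ, Dg t g → 0 ≤ ∑ y, D y * g y ^ 2)
    (hD4 : ∀ y, |D y| ≤ 2 ^ m)
    (g : (Fin m → Fin b) → (Fin m → Bool) → ℝ) (G ε : ℝ) (hε : 0 < ε) (hGE : G ≤ 2 ^ E * ε) (hεG : ε ≤ G)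
    (hgG : ∀ S y, g S y ≤ G) (hD2 : ∀ S, ∑ y, D y * g S y ≤ -(ε * 2 ^ m))
    (hw : 2 * m + 2 * E + 19 ≤ w * t) (hj : m + 4 + E ≤ 2 * j)
    (hb : 2 ^ (l + w) * ((2 ^ j * (l * t + m + 7 + E)) * m) ≤ b)
    {X F : Type*} [AddCommGroup X] [Module ℝ X] [AddCommGroup F] [Module ℝ F]
    (Zm : X →ₗ[ℝ] Matrix (Fin r) (Fin r) ℝ) (B : X →ₗ[ℝ] F) (c : I → F)
    (idx : (Fin m × Fin b → Bool) → I)
    (e : (Fin m × Fin b → Bool) → X) (he : ∀ x, (Zm (e x)).PosSemidef)
    (hB : ∀ x, B (e x) = c (idx x)) (L : (Fin m → Fin b) → X →ₗ[ℝ] ℝ)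
    (w0 : (Fin m → Fin b) → I → ℝ)
    (hval : ∀ S x, L S (e x) + w0 S (idx x) = g S (res S x))
    (hvalid : ∀ S i z, (Zm z).PosSemidef → B z = c i → 0 ≤ L S z + w0 S i) :
    2 ^ (l * t) < Fintype.card I * (r + 1) := by
  by_contra hr
  push Not at hr
  have hdual : ∀ (S : Fin m → Fin b) (i : I), ∃ (P : Matrix (Fin r) (Fin r) ℝ) (c0 : ℝ),
      P.PosSemidef ∧ 0 ≤ c0 ∧ ∀ x, idx x = i →
        |L S (e x) + w0 S i - (P * Zm (e x)).trace - c0| ≤ ε / (4 * 2 ^ m) := by
    intro S i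
    by_cases hne : Nonempty {x // idx x = i}
    · obtain ⟨P, c0, hP, hc0, hPc⟩ := dual_approx Zm B (c i) (L S) (w0 S i)
        (fun z hz hBz => hvalid S i z hz hBz) (X := {x // idx x = i}) (fun x => e x.1)
        (fun x => he x.1) (fun x => by rw [hB, x.2]) (ε / (4 * 2 ^ m)) (by positivity)
      exact ⟨P, c0, hP, hc0, fun x hx => hPc ⟨x, hx⟩⟩
    · exact ⟨0, 0, Matrix.PosSemidef.zero, le_rfl, fun x hx => absurd ⟨⟨x, hx⟩⟩ hne⟩
  choose P c0 hP hc0 hPc using hdual
  refine no_fact_exp (κ := (Fin r ⊕ Unit) × I) t l w E j ht hm D hD3 hD4 g G ε hε hGE hεG hgG hD2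
    hw hj hb ?_
    (fun S => Matrix.blockDiagonal fun i =>
      Matrix.fromBlocks (P S i) 0 0 (Matrix.of fun _ _ : Unit => c0 S i))
    (fun S => psd_blockDiagonal fun i => psd_block (hP S i) (hc0 S i))
    (fun x => Matrix.blockDiagonal fun i => if i = idx x then
      Matrix.fromBlocks (Zm (e x)) 0 0 (Matrix.of fun _ _ : Unit => 1) else 0)
    (fun x => psd_blockDiagonal fun i => ?_) ?_
  · rw [Fintype.card_prod, Fintype.card_sum, Fintype.card_fin, Fintype.card_unit, mul_comm]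
    exact hr
  · split_ifs
    · exact psd_block (he x) zero_le_one
    · exact Matrix.PosSemidef.zero
  · intro S x
    rw [← Matrix.blockDiagonal_mul, Matrix.trace_blockDiagonal]
    have e1 : ∑ i, (Matrix.fromBlocks (P S i) 0 0 (Matrix.of fun _ _ : Unit => c0 S i) *
        if i = idx x then
          Matrix.fromBlocks (Zm (e x)) 0 0 (Matrix.of fun _ _ : Unit => (1 : ℝ)) else 0).trace
        = (P S (idx x) * Zm (e x)).trace + c0 S (idx x) := by
      rw [Finset.sum_eq_single (idx x)]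
      · rw [if_pos rfl, trace_block, mul_one]
      · intro i _ hi
        rw [if_neg hi, Matrix.mul_zero, Matrix.trace_zero]
      · intro hx
        exact absurd (Finset.mem_univ _) hx
    rw [e1, ← abs_neg]
    refine le_trans (le_of_eq ?_) (hPc S (idx x) x rfl)
    congr 1
    have := hval S x
    linarith

end Pool.Agent.TH661.LRS
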