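import Mathlib
import Pool.Agent.TH661.LRS.Four
import Pool.Agent.W888.GX.Thr

/-!
Unsatisfiable systems of linear equations modulo two with three variables each, and densities on
the cube for which all the equations hold.
-/

namespace Pool.Agent.TH661.LRS

open Finset

namespace Sys

open Pool.Agent.W888.GX (Lf LowDegree IsPseudoExpectation hat)

/-- `Bool` to `ZMod 2`. -/
def toZ (a : Bool) : ZMod 2 := if a = true then 1 else 0

/-- `ZMod 2` to `Bool`. -/
def toB (a : ZMod 2) : Bool := decide (a = 1)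

theorem toB_toZ (a : Bool) : toB (toZ a) = a := by cases a <;> decide

theorem toZ_toB (a : ZMod 2) : toZ (toB a) = a := by revert a; decide

theorem toZ_xor (a b : Bool) : toZ (xor a b) = toZ a + toZ b := by cases a <;> cases b <;> decide

/-- The bijection of the cubes. -/
def eZ (n : ℕ) : (Fin n → Bool) ≃ (Fin n → ZMod 2) where
  toFun y := fun i => toZ (y i)
  invFun x := fun i => toB (x i)
  left_inv y := funext fun i => toB_toZ (y i)
  right_inv x := funext fun i => toZ_toB (x i)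

variable {n : ℕ}

/-- The density with prescribed Fourier coefficients. -/
noncomputable def den (ℓ : (Fin n → ZMod 2) → ℝ) (y : Fin n → Bool) : ℝ :=
  ∑ a, ℓ a * Pool.Agent.W888.GX.chi a (eZ n y)

theorem sum_den (ℓ : (Fin n → ZMod 2) → ℝ) (F : (Fin n → ZMod 2) → ℝ) :
    ∑ y, den ℓ y * F (eZ n y) = 2 ^ n * Lf ℓ F := by
  have h1 : ∑ y, den ℓ y * F (eZ n y)
      = ∑ x, (∑ a, ℓ a * Pool.Agent.W888.GX.chi a x) * F x :=
    Equiv.sum_comp (eZ n) fun x => (∑ a, ℓ a * Pool.Agent.W888.GX.chi a x) * F x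
  rw [h1]
  show _ = 2 ^ n * ∑ a, ℓ a * hat F a
  simp only [hat, Fintype.card_fin, Finset.sum_mul, Finset.mul_sum]
  rw [Finset.sum_comm]
  refine Finset.sum_congr rfl fun a _ => Finset.sum_congr rfl fun x _ => ?_
  field_simp

theorem abs_den (ℓ : (Fin n → ZMod 2) → ℝ) (h : ∀ a, |ℓ a| ≤ 1) (y : Fin n → Bool) :
    |den ℓ y| ≤ 2 ^ n := by
  unfold den
  refine (Finset.abs_sum_le_sum_abs _ _).trans ?_
  have h1 : ∀ a x, |Pool.Agent.W888.GX.chi (V := Fin n) a x| = 1 := by
    intro a x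
    have h2 := Pool.Agent.W888.GX.sg_sq (a ⬝ᵥ x)
    unfold Pool.Agent.W888.GX.chi
    rw [← sq_abs] at h2
    nlinarith [abs_nonneg (Pool.Agent.W888.GX.sg (a ⬝ᵥ x))]
  calc ∑ a, |ℓ a * Pool.Agent.W888.GX.chi a (eZ n y)| ≤ ∑ _a : Fin n → ZMod 2, (1 : ℝ) := by
        refine Finset.sum_le_sum fun a _ => ?_
        rw [abs_mul, h1, mul_one]
        exact h a
    _ = 2 ^ n := by
        rw [Finset.sum_const, Finset.card_univ, Fintype.card_fun, ZMod.card, Fintype.card_fin,
          nsmul_eq_mul, mul_one]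
        push_cast
        rfl

theorem low_of_Dg {t : ℕ} {g : (Fin n → Bool) → ℝ} (hg : Dg t g) :
    (fun x => g ((eZ n).symm x)) ∈ LowDegree (Fin n) (ZMod 2) t := by
  have h1 : (fun x => g ((eZ n).symm x)) = ∑ T ∈ univ.filter (fun T : Finset (Fin n) => T.card ≤ t),
      (fc g T) • (fun x => chi T ((eZ n).symm x)) := by
    funext x
    rw [Finset.sum_apply]
    simp only [Pi.smul_apply, smul_eq_mul]
    rw [Finset.sum_filter, ← inversion g ((eZ n).symm x)]
    refine Finset.sum_congr rfl fun T _ => ?_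
    split_ifs with h
    · rfl
    · rw [hg.fc (not_le.1 h), zero_mul]
  rw [h1]
  refine Submodule.sum_mem _ fun T hT => Submodule.smul_mem _ _ (Submodule.subset_span ?_)
  refine ⟨T, (mem_filter.1 hT).2, fun x y hxy => ?_⟩
  unfold chi
  refine Finset.prod_congr rfl fun i hi => ?_
  show sg (toB (x i)) = sg (toB (y i))
  rw [hxy i hi]

theorem den_pos {t : ℕ} {ℓ : (Fin n → ZMod 2) → ℝ} (h : IsPseudoExpectation t (Lf ℓ))
    (g : (Fin n → Bool) → ℝ) (hg : Dg t g) : 0 ≤ ∑ y, den ℓ y * g y ^ 2 := by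
  have h1 := sum_den ℓ (fun x => (g ((eZ n).symm x)) ^ 2)
  simp only [Equiv.symm_apply_apply] at h1
  rw [h1]
  exact mul_nonneg (by positivity) (h.2 _ (low_of_Dg hg))

end Sys

/-- The left-hand side of an equation with three variables. -/
def par {n : ℕ} (c : Fin 3 → Fin n) (y : Fin n → Bool) : Bool :=
  xor (y (c 0)) (xor (y (c 1)) (y (c 2)))

theorem par_eq {n : ℕ} (c : Fin 3 → Fin n) (y : Fin n → Bool) (b : ZMod 2) :
    par c y = Sys.toB b ↔ ∑ s, Sys.eZ n y (c s) = b := by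
  have h1 : ∑ s, Sys.eZ n y (c s) = Sys.toZ (par c y) := by
    unfold par
    rw [Sys.toZ_xor, Sys.toZ_xor, Fin.sum_univ_three]
    show _ + _ + _ = _
    rw [add_assoc]
    rfl
  rw [h1]
  constructor
  · intro h
    rw [h, Sys.toZ_toB]
  · intro h
    rw [← h, Sys.toB_toZ]

open Sys Pool.Agent.W888.GX in
/-- Unsatisfiable sparse systems and the densities for which all the equations hold. -/
theorem exists_system (δ : ℝ) (hδ : 0 < δ) : ∃ M K n0 : ℕ, 1 ≤ M ∧ 1 ≤ K ∧ ∀ n, n0 ≤ n →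
    ∃ (N : ℕ) (c : Fin N → Fin 3 → Fin n) (b : Fin N → Bool) (D : (Fin n → Bool) → ℝ),
      N ≤ M * n ∧ n ≤ 2 * N ∧ (∀ j, Function.Injective (c j)) ∧
      (∀ y, (1 / 2 - δ) * N ≤ ((univ.filter fun j => ¬ par (c j) y = b j).card : ℝ)) ∧
      (∀ y, |D y| ≤ 2 ^ n) ∧ ∑ y, D y = 2 ^ n ∧
      (∀ t, K * t ≤ n → ∀ g : (Fin n → Bool) → ℝ, Dg t g → 0 ≤ ∑ y, D y * g y ^ 2) ∧
      ∀ j, ∑ y, D y * (if par (c j) y = b j then 0 else 1) = 0 := by
  classical
  obtain ⟨q, hq⟩ := exists_nat_gt (2 / δ + 2)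
  have hq2 : (2 : ℝ) < q := by
    have : 0 < 2 / δ := by positivity
    linarith
  have hq0 : (0 : ℝ) < q := by linarith
  obtain ⟨M, hM⟩ := exists_nat_gt (Real.log 2 / (2 * (δ / 2) ^ 2))
  have hlog : 0 < Real.log 2 := Real.log_pos (by norm_num)
  have hM0 : (0 : ℝ) < M := lt_of_le_of_lt (by positivity) hM
  have hM1 : 1 ≤ M := by
    have : 0 < M := by exact_mod_cast hM0
    omega
  obtain ⟨ξ, hξd⟩ : ∃ ξ : ℝ, ξ = 1 / (6 * 32 ^ q) := ⟨_, rfl⟩
  have hξ0 : 0 < ξ := by rw [hξd]; positivity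
  have hpξ : (32 : ℝ) ^ q * (6 * ξ) ≤ 1 := by
    rw [hξd]
    apply le_of_eq
    have : (0 : ℝ) < 32 ^ q := by positivity
    field_simp
  obtain ⟨K, hK⟩ : ∃ K : ℕ, K = 16384 * 3 ^ 12 * M ^ 4 := ⟨_, rfl⟩
  have hKpos : 0 < K := by
    rw [hK]
    have : 0 < M := by omega
    positivity
  refine ⟨M, 8 * K, 2 * K + 6 * 32 ^ q, hM1, by omega, ?_⟩
  intro n hn
  have hn1 : 1 ≤ n := by omega
  have hn0 : (0 : ℝ) < n := by exact_mod_cast hn1
  obtain ⟨r0, hr0⟩ : ∃ r0, r0 = n / K := ⟨_, rfl⟩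
  have hr1 : 1 ≤ r0 := by
    rw [hr0, Nat.le_div_iff_mul_le hKpos]
    omega
  have hrn : r0 * K ≤ n := by
    rw [hr0]
    exact Nat.div_mul_le_self n K
  obtain ⟨c, hc1, hc2⟩ := exists_hyp3 (M * n) n (2 * r0) q ξ hn1
    (Nat.le_mul_of_pos_left n hM1)
    (by
      have h4 : 4 ≤ K := by
        rw [hK]
        calc 4 ≤ 16384 * 3 ^ 12 * 1 := by norm_num
          _ ≤ _ := Nat.mul_le_mul_left _ (Nat.one_le_pow _ _ (by omega))
      calc 2 * (2 * r0) = r0 * 4 := by ring
        _ ≤ r0 * K := Nat.mul_le_mul_left _ h4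
        _ ≤ n := hrn)
    (by
      have h1 : (r0 : ℝ) * K ≤ n := by exact_mod_cast hrn
      push_cast
      calc 8192 * 3 ^ 12 * ((M : ℝ) * n) ^ 4 * (2 * r0) =
            ((r0 : ℝ) * (16384 * 3 ^ 12 * M ^ 4)) * n ^ 4 := by ring
        _ = ((r0 : ℝ) * K) * n ^ 4 := by
            rw [hK]
            push_cast
            ring
        _ ≤ n * n ^ 4 := mul_le_mul_of_nonneg_right h1 (by positivity)
        _ = (n : ℝ) ^ 5 := by ring)
    (by
      rw [hξd, one_div, inv_mul_eq_div, one_le_div (by positivity)]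
      exact_mod_cast (by omega : 6 * 32 ^ q ≤ n)) hpξ
  obtain ⟨b, hb⟩ := Pool.Agent.H30R2.NS.exists_far (m := M * n) (γ := δ / 2) (by positivity) (by
    rw [Fintype.card_fin]
    push_cast
    rw [div_lt_iff₀ (by positivity)] at hM
    calc Real.log 2 * n < (M * (2 * (δ / 2) ^ 2)) * n := mul_lt_mul_of_pos_right hM hn0
      _ = _ := by ring) (fun p : Fin (M * n) × Fin 3 => c p.1 p.2)
  -- the good equations
  obtain ⟨G, hGdef⟩ : ∃ G : Finset (Fin (M * n)), G = univ.filter fun j => ¬ Bad ∅ (c j) :=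
    ⟨_, rfl⟩
  have hGbad : ∀ j ∈ G, ¬ Bad ∅ (c j) := fun j hj => by
    rw [hGdef] at hj
    exact (mem_filter.1 hj).2
  have hE := exp3_of c hc1 ∅ G hGbad
  have hbadc : (q : ℝ) * ((univ.filter fun j => Bad ∅ (c j)).card : ℝ) ≤ M * n := by
    have := hc2 ∅ (by simp; positivity)
    exact_mod_cast this
  have hcardG : ((univ.filter fun j => Bad ∅ (c j)).card : ℝ) + G.card = M * n := by
    have h1 := Finset.card_filter_add_card_filter_not (s := (univ : Finset (Fin (M * n))))
      (fun j => Bad ∅ (c j))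
    rw [← hGdef, card_univ, Fintype.card_fin] at h1
    exact_mod_cast h1
  set B0 : ℝ := ((univ.filter fun j => Bad ∅ (c j)).card : ℝ) with hB0
  have hB00 : 0 ≤ B0 := by positivity
  have hMn : (0 : ℝ) < M * n := by positivity
  have hB1 : B0 ≤ M * n / 2 := by
    have : 2 * B0 ≤ q * B0 := mul_le_mul_of_nonneg_right hq2.le hB00
    linarith
  have hB2 : B0 ≤ δ / 2 * (M * n) := by
    have h1 : 2 / δ < q := by linarith
    rw [div_lt_iff₀ hδ] at h1
    have h2 : 2 * B0 ≤ (q * δ) * B0 := mul_le_mul_of_nonneg_right h1.le hB00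
    have h3 : (q * δ) * B0 ≤ δ * (M * n) := by
      calc (q * δ) * B0 = δ * (q * B0) := by ring
        _ ≤ _ := mul_le_mul_of_nonneg_left hbadc hδ.le
    linarith
  have e := G.equivFin
  set ℓ := ell (row c) b (∅ : Finset (Fin n))ᶜ G r0 0 with hℓ
  refine ⟨G.card, fun j => c (e.symm j).1, fun j => toB (b (e.symm j).1), den ℓ, ?_, ?_, ?_, ?_,
    ?_, ?_, ?_, ?_⟩
  · have h1 : (G.card : ℝ) ≤ M * n := by linarith
    exact_mod_cast h1
  · have h1 : (n : ℝ) ≤ 2 * G.card := by
      have h2 : (n : ℝ) ≤ M * n := by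
        have : (1 : ℝ) ≤ M := by exact_mod_cast hM1
        nlinarith
      linarith
    exact_mod_cast h1
  · intro j
    exact (not_not.1 (hGbad _ (e.symm j).2)).1
  · intro y
    have h1 := hb (eZ n y)
    have h2 : ((univ.filter fun j : Fin G.card => ¬ par (c (e.symm j).1) y
        = toB (b (e.symm j).1)).card : ℝ)
        = ((G.filter fun j => ¬ ∑ s, eZ n y (c j s) = b j).card : ℝ) := by
      have h3 : (univ.filter fun j : Fin G.card => ¬ par (c (e.symm j).1) y
          = toB (b (e.symm j).1)).card = (G.filter fun j => ¬ ∑ s, eZ n y (c j s) = b j).card := by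
        refine Finset.card_bij (fun j _ => (e.symm j).1) ?_ ?_ ?_
        · intro j hj
          rw [mem_filter] at hj ⊢
          refine ⟨(e.symm j).2, ?_⟩
          rw [← par_eq]
          exact hj.2
        · intro j _ j' _ h
          exact e.symm.injective (Subtype.ext h)
        · intro j hj
          rw [mem_filter] at hj
          refine ⟨e ⟨j, hj.1⟩, ?_, ?_⟩
          · rw [mem_filter]
            refine ⟨mem_univ _, ?_⟩
            rw [Equiv.symm_apply_apply, par_eq]
            exact hj.2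
          · rw [Equiv.symm_apply_apply]
      rw [h3]
    rw [h2]
    have h3 : ((1 / 2 - δ / 2) * ((M * n : ℕ) : ℝ)) ≤
        ((univ.filter fun j => ¬ ∑ s, eZ n y (c j s) = b j).card : ℝ) := by
      refine h1.trans (le_of_eq ?_)
      have h4 := viol_eq c b (eZ n y)
      rw [← h4]
      unfold viol
      rw [Finset.card_filter]
      push_cast
      refine Finset.sum_congr rfl fun j _ => ?_
      by_cases h : ∑ s, eZ n y (c j s) = b j
      · rw [if_pos h, if_neg (not_not.2 h)]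
      · rw [if_neg h, if_pos h]
    have h4 : ((univ.filter fun j => ¬ ∑ s, eZ n y (c j s) = b j).card : ℝ) ≤
        ((G.filter fun j => ¬ ∑ s, eZ n y (c j s) = b j).card : ℝ) + B0 := by
      have h5 : (univ.filter fun j => ¬ ∑ s, eZ n y (c j s) = b j) ⊆
          (G.filter fun j => ¬ ∑ s, eZ n y (c j s) = b j) ∪ (univ.filter fun j => Bad ∅ (c j)) := by
        intro j hj
        rw [mem_union, mem_filter, mem_filter, hGdef, mem_filter]
        by_cases hbad : Bad ∅ (c j)
        · exact Or.inr ⟨mem_univ _, hbad⟩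
        · exact Or.inl ⟨⟨mem_univ _, hbad⟩, (mem_filter.1 hj).2⟩
      have h6 := (Finset.card_le_card h5).trans (Finset.card_union_le _ _)
      rw [hB0]
      exact_mod_cast h6
    push_cast at h3
    have h5 : (G.card : ℝ) ≤ M * n := by linarith
    rcases le_or_gt δ (1 / 2) with hd | hd
    · have h6 : (1 / 2 - δ) * (G.card : ℝ) ≤ (1 / 2 - δ) * (M * n) :=
        mul_le_mul_of_nonneg_left h5 (by linarith)
      linarith
    · have h6 : (1 / 2 - δ) * (G.card : ℝ) ≤ 0 :=
        mul_nonpos_of_nonpos_of_nonneg (by linarith) (by positivity)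
      have h7 : (0 : ℝ) ≤ ((G.filter fun j => ¬ ∑ s, eZ n y (c j s) = b j).card : ℝ) := by
        positivity
      linarith
  · intro y
    exact abs_den ℓ (fun a => ell_abs a) y
  · have h1 := sum_den ℓ (fun _ => 1)
    simp only [mul_one] at h1
    rw [h1]
    have h2 := (pe (b := b) (w := 0) hE 0 (by omega)).1
    rw [← hℓ] at h2
    rw [h2, mul_one]
  · intro t ht g hg
    have hDr : 8 * t ≤ r0 := by
      rw [hr0, Nat.le_div_iff_mul_le hKpos]
      calc 8 * t * K = 8 * K * t := by ring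
        _ ≤ n := ht
    exact den_pos (pe (b := b) (w := 0) hE t hDr) g hg
  · intro j
    have h1 := sum_den ℓ (fun x => if ∑ s, x (c (e.symm j).1 s) = b (e.symm j).1 then 0 else 1)
    have h2 : ∀ y, (if par (c (e.symm j).1) y = toB (b (e.symm j).1) then (0 : ℝ) else 1)
        = if ∑ s, eZ n y (c (e.symm j).1 s) = b (e.symm j).1 then 0 else 1 := by
      intro y
      by_cases h : par (c (e.symm j).1) y = toB (b (e.symm j).1)
      · rw [if_pos h, if_pos ((par_eq _ _ _).1 h)]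
      · rw [if_neg h, if_neg fun h' => h ((par_eq _ _ _).2 h')]
    simp only [h2]
    rw [h1]
    set j' := (e.symm j).1 with hj'
    have h3 : (fun x : Fin n → ZMod 2 => if ∑ s, x (c j' s) = b j' then (0 : ℝ) else 1) =
        (1 / 2 : ℝ) • (Pool.Agent.W888.GX.chi 0 : (Fin n → ZMod 2) → ℝ) -
        (Pool.Agent.W888.GX.sg (b j') / 2) •
          (Pool.Agent.W888.GX.chi (row c j') : (Fin n → ZMod 2) → ℝ) := by
      funext x
      rw [Pi.sub_apply, Pi.smul_apply, Pi.smul_apply, chi_zero, smul_eq_mul, smul_eq_mul]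
      unfold Pool.Agent.W888.GX.chi
      rw [row_dot]
      rcases z2 (∑ s, x (c j' s)) with h | h <;> rcases z2 (b j') with h' | h'
      · rw [h, h', if_pos rfl, sg_zero]; norm_num
      · rw [h, h', if_neg (by decide), sg_zero, sg_one]; norm_num
      · rw [h, h', if_neg (by decide), sg_zero, sg_one]; norm_num
      · rw [h, h', if_pos rfl, sg_one]; norm_num
    rw [h3, map_sub, map_smul, map_smul, Lf_chi, Lf_chi]
    have h4 : ℓ 0 = 1 := by
      have h5 := (pe (b := b) (w := 0) hE 0 (by omega)).1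
      rw [← hℓ] at h5
      have h6 : (fun _ : Fin n → ZMod 2 => (1 : ℝ)) = Pool.Agent.W888.GX.chi 0 := by
        funext y
        rw [chi_zero]
      rw [h6, Lf_chi] at h5
      exact h5
    have h5 : ℓ (row c j') = Pool.Agent.W888.GX.sg (b j') := ell_row hE hr1 (e.symm j).2
    rw [h4, h5, smul_eq_mul, smul_eq_mul]
    have h6 := Pool.Agent.W888.GX.sg_sq (b j')
    have h7 : Pool.Agent.W888.GX.sg (b j') / 2 * Pool.Agent.W888.GX.sg (b j') = 1 / 2 := by
      rw [div_mul_eq_mul_div, ← sq, h6]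
    rw [h7]
    ring

end Pool.Agent.TH661.LRS
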