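import Mathlib
import Pool.Agent.TH661.LRS.Sys
import Pool.Agent.TH661.LRS.Exp

/-!
Sampling tuples of equations, and nonnegative functions of few variables.
-/

namespace Pool.Agent.TH661.LRS

open Finset

/-- Sampling. -/
theorem exists_sample {W Y : Type} [Fintype W] [DecidableEq W] [Fintype Y] (k : ℕ)
    (hk : 1 ≤ k) (hW : 0 < Fintype.card W) (hY : Fintype.card Y ≤ 2 ^ k) (A : Y → Finset W)
    (p α : ℝ) (hp0 : 0 < p) (hp1 : p ≤ 1) (hpα : p ^ α ≤ 1 / 8)
    (hA : ∀ y, ((A y).card : ℝ) ≤ p * Fintype.card W) :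
    ∃ τ : Fin k → W, ∀ y, ((univ.filter fun j => τ j ∈ A y).card : ℝ) ≤ α * k := by
  by_contra hcon
  push Not at hcon
  have hWR : (0 : ℝ) < Fintype.card W := by exact_mod_cast hW
  set l : ℝ := 1 / p with hl
  have hl1 : 1 ≤ l := by rw [hl, le_div_iff₀ hp0]; linarith
  have hl0 : 0 < l := by linarith
  set f : Y → W → ℝ := fun y w => if w ∈ A y then l else 1 with hf
  have hf0 : ∀ y w, 0 ≤ f y w := by
    intro y w
    simp only [hf]
    split_ifs <;> linarith
  have hsum : ∀ y, ∑ w, f y w ≤ 2 * Fintype.card W := by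
    intro y
    have h1 : ∑ w, f y w ≤ ∑ w, ((if w ∈ A y then l else 0) + 1) := by
      refine Finset.sum_le_sum fun w _ => ?_
      simp only [hf]
      split_ifs <;> linarith
    refine h1.trans ?_
    rw [Finset.sum_add_distrib, Finset.sum_ite_mem, Finset.univ_inter, Finset.sum_const,
      Finset.sum_const, nsmul_eq_mul, nsmul_eq_mul, mul_one, Finset.card_univ]
    have h2 : ((A y).card : ℝ) * l ≤ Fintype.card W := by
      have h3 := mul_le_mul_of_nonneg_right (hA y) hl0.le
      refine h3.trans (le_of_eq ?_)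
      rw [hl]
      field_simp
    linarith
  have hprod : ∀ y, ∑ τ : Fin k → W, ∏ j, f y (τ j) ≤ (2 * Fintype.card W) ^ k := by
    intro y
    have e : ∑ τ : Fin k → W, ∏ j, f y (τ j) = (∑ w, f y w) ^ k := by
      rw [Fintype.sum_pow]
    rw [e]
    exact pow_le_pow_left₀ (Finset.sum_nonneg fun w _ => hf0 y w) (hsum y) k
  have hτ : ∀ τ : Fin k → W, (8 : ℝ) ^ k ≤ ∑ y, ∏ j, f y (τ j) := by
    intro τ
    obtain ⟨y, hy⟩ := hcon τ
    have h1 : ∏ j, f y (τ j) ≤ ∑ y, ∏ j, f y (τ j) :=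
      Finset.single_le_sum (f := fun y => ∏ j, f y (τ j))
        (fun y _ => Finset.prod_nonneg fun j _ => hf0 y _) (Finset.mem_univ y)
    refine le_trans ?_ h1
    have h2 : ∏ j, f y (τ j) = l ^ (univ.filter fun j => τ j ∈ A y).card := by
      simp only [hf]
      rw [Finset.prod_ite, Finset.prod_const, Finset.prod_const_one, mul_one]
    rw [h2, ← Real.rpow_natCast l]
    have h3 : (8 : ℝ) ≤ l ^ α := by
      rw [hl, Real.div_rpow zero_le_one hp0.le, Real.one_rpow, le_div_iff₀ (by positivity)]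
      linarith
    calc (8 : ℝ) ^ k ≤ (l ^ α) ^ k := pow_le_pow_left₀ (by norm_num) h3 k
      _ = l ^ (α * k) := by rw [← Real.rpow_natCast, ← Real.rpow_mul hl0.le]
      _ ≤ _ := Real.rpow_le_rpow_of_exponent_le hl1 hy.le
  have h1 : (8 : ℝ) ^ k * (Fintype.card W) ^ k ≤ ∑ τ : Fin k → W, ∑ y, ∏ j, f y (τ j) := by
    calc (8 : ℝ) ^ k * (Fintype.card W) ^ k = ∑ _τ : Fin k → W, (8 : ℝ) ^ k := by
          rw [Finset.sum_const, nsmul_eq_mul, Finset.card_univ, Fintype.card_fun, Fintype.card_fin]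
          push_cast
          ring
      _ ≤ _ := Finset.sum_le_sum fun τ _ => hτ τ
  rw [Finset.sum_comm] at h1
  have h2 : ∑ y, ∑ τ : Fin k → W, ∏ j, f y (τ j) ≤ 2 ^ k * (2 * Fintype.card W) ^ k := by
    calc _ ≤ ∑ _y : Y, (2 * (Fintype.card W : ℝ)) ^ k := Finset.sum_le_sum fun y _ => hprod y
      _ = (Fintype.card Y : ℝ) * (2 * Fintype.card W) ^ k := by
          rw [Finset.sum_const, nsmul_eq_mul, Finset.card_univ]
      _ ≤ _ := by
          refine mul_le_mul_of_nonneg_right ?_ (by positivity)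
          exact_mod_cast hY
  have h3 := h1.trans h2
  have h4 : (2 : ℝ) ^ k * (2 * Fintype.card W) ^ k = 4 ^ k * (Fintype.card W) ^ k := by
    rw [← mul_pow, ← mul_pow]
    congr 1
    ring
  rw [h4] at h3
  have h5 : (8 : ℝ) ^ k ≤ 4 ^ k := le_of_mul_le_mul_right h3 (by positivity)
  have h6 : (4 : ℝ) ^ k < 8 ^ k := pow_lt_pow_left₀ (by norm_num) (by norm_num) (by omega)
  linarith

variable {m : ℕ}

/-- Functions of few variables have low degree. -/
theorem Dg.junta (J : Finset (Fin m)) (f : (Fin m → Bool) → ℝ)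
    (h : ∀ x y, (∀ i ∈ J, x i = y i) → f x = f y) : Dg J.card f := by
  intro T hT
  obtain ⟨i, hi, hiJ⟩ : ∃ i ∈ T, i ∉ J := by
    by_contra hne
    push Not at hne
    exact absurd (Finset.card_le_card hne) (not_le.2 hT)
  refine sum_chi_of_inv hi f fun x => h _ _ fun i' hi' => ?_
  refine flip_ne ?_ x
  rintro rfl
  exact hiJ hi'

/-- Nonnegative functions of few variables. -/
theorem junta_pos {t : ℕ} (D : (Fin m → Bool) → ℝ)
    (hD3 : ∀ g : (Fin m → Bool) → ℝ, Dg t g → 0 ≤ ∑ y, D y * g y ^ 2)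
    (J : Finset (Fin m)) (hJ : J.card ≤ t) (f : (Fin m → Bool) → ℝ)
    (h : ∀ x y, (∀ i ∈ J, x i = y i) → f x = f y) (h0 : ∀ y, 0 ≤ f y) :
    0 ≤ ∑ y, D y * f y := by
  have h1 := hD3 (fun y => √(f y)) ((Dg.junta J (fun y => √(f y)) fun x y hxy => by
    show √(f x) = √(f y)
    rw [h x y hxy]).mono hJ)
  simpa only [Real.sq_sqrt (h0 _)] using h1

/-- No equation of a small set is violated. -/
theorem viol_zero {N t : ℕ} (D : (Fin m → Bool) → ℝ)
    (hD3 : ∀ g : (Fin m → Bool) → ℝ, Dg t g → 0 ≤ ∑ y, D y * g y ^ 2)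
    (c : Fin N → Fin 3 → Fin m) (rhs : Fin N → Bool)
    (hD2 : ∀ e, ∑ y, D y * (if par (c e) y = rhs e then 0 else 1) = 0)
    (E0 : Finset (Fin N)) (hE : 3 * E0.card ≤ t) :
    ∑ y, D y * (if ∃ e ∈ E0, ¬ par (c e) y = rhs e then (1 : ℝ) else 0) = 0 := by
  classical
  set J : Finset (Fin m) := E0.biUnion fun e => univ.image (c e) with hJ
  have hJc : J.card ≤ t := by
    refine le_trans (Finset.card_biUnion_le_card_mul E0 _ 3 fun e _ => ?_) (by omega)
    exact Finset.card_image_le.trans (by simp)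
  have hpar : ∀ x y : Fin m → Bool, (∀ i ∈ J, x i = y i) → ∀ e ∈ E0,
      par (c e) x = par (c e) y := by
    intro x y hxy e he
    have h1 : ∀ s, x (c e s) = y (c e s) := by
      intro s
      refine hxy _ ?_
      rw [hJ, Finset.mem_biUnion]
      exact ⟨e, he, Finset.mem_image_of_mem _ (Finset.mem_univ s)⟩
    unfold par
    rw [h1, h1, h1]
  have hcong : ∀ x y : Fin m → Bool, (∀ i ∈ J, x i = y i) →
      ((∃ e ∈ E0, ¬ par (c e) x = rhs e) ↔ ∃ e ∈ E0, ¬ par (c e) y = rhs e) := by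
    intro x y hxy
    constructor
    · rintro ⟨e, he, h1⟩
      exact ⟨e, he, by rwa [← hpar x y hxy e he]⟩
    · rintro ⟨e, he, h1⟩
      exact ⟨e, he, by rwa [hpar x y hxy e he]⟩
  refine le_antisymm ?_ ?_
  · have h1 := junta_pos D hD3 J hJc (fun y => ∑ e ∈ E0, (if par (c e) y = rhs e then (0 : ℝ) else 1)
      - if ∃ e ∈ E0, ¬ par (c e) y = rhs e then (1 : ℝ) else 0) ?_ ?_
    · simp only [mul_sub, Finset.sum_sub_distrib, Finset.mul_sum] at h1
      rw [Finset.sum_comm, Finset.sum_eq_zero fun e _ => hD2 e] at h1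
      linarith
    · intro x y hxy
      simp only [hcong x y hxy]
      congr 1
      exact Finset.sum_congr rfl fun e he => by rw [hpar x y hxy e he]
    · intro y
      split_ifs with hex
      · obtain ⟨e, he, h1⟩ := hex
        have h2 : (1 : ℝ) ≤ ∑ e ∈ E0, (if par (c e) y = rhs e then (0 : ℝ) else 1) := by
          have h3 := Finset.single_le_sum (f := fun e => if par (c e) y = rhs e then (0 : ℝ) else 1)
            (fun e _ => by split_ifs <;> norm_num) he
          simpa only [if_neg h1] using h3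
        linarith
      · rw [sub_zero]
        exact Finset.sum_nonneg fun e _ => by split_ifs <;> norm_num
  · refine junta_pos D hD3 J hJc _ ?_ ?_
    · intro x y hxy
      simp only [hcong x y hxy]
    · intro y
      split_ifs <;> norm_num

end Pool.Agent.TH661.LRS
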