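import Mathlib
import Pool.Agent.TH661.LRS.Exp
import Pool.Agent.TH661.LRS.Cut

/-!
The lower bound for mixed-binary semidefinite programs, with exponentially large densities.
-/

namespace Pool.Agent.TH661.LRS

open Finset Matrix

theorem region_bound_exp {m b k d q r : ℕ} (t l w E j : ℕ)
    (ht : 1 ≤ t) (hm : 1 ≤ m) (D : (Fin m → Bool) → ℝ)
    (hD3 : ∀ g : (Fin m → Bool) → ℝ, Dg t g → 0 ≤ ∑ y, D y * g y ^ 2)
    (hD4 : ∀ y, |D y| ≤ 2 ^ m)
    (g : (Fin m → Fin b) → (Fin m → Bool) → ℝ) (G ε : ℝ) (hε : 0 < ε) (hGE : G ≤ 2 ^ E * ε)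
    (hεG : ε ≤ G) (hgG : ∀ S y, g S y ≤ G) (hD2 : ∀ S, ∑ y, D y * g S y ≤ -(ε * 2 ^ m))
    (hw : 2 * m + 2 * E + 19 ≤ w * t) (hj : m + 4 + E ≤ 2 * j)
    (hb : 2 ^ (l + w) * ((2 ^ j * (l * t + m + 7 + E)) * m) ≤ b)
    (A : ((Fin k → ℝ) × (Fin d → ℝ) × Matrix (Fin r) (Fin r) ℝ) →ₗ[ℝ] (Fin q → ℝ))
    (c : Fin q → ℝ)
    (y : (Fin m × Fin b → Bool) → (Fin k → Bool) × (Fin d → ℝ) × Matrix (Fin r) (Fin r) ℝ)
    (psd : ∀ x, (y x).2.2.PosSemidef) (eqn : ∀ x, A (bits (y x).1, (y x).2) = c)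
    (W : (Fin m → Fin b) → ((Fin k → ℝ) × (Fin d → ℝ) × Matrix (Fin r) (Fin r) ℝ) →ₗ[ℝ] ℝ)
    (w0 bd : (Fin m → Fin b) → ℝ)
    (value : ∀ S x, bd S - (W S (bits (y x).1, (y x).2) + w0 S) = g S (res S x))
    (bound : ∀ S (β : Fin k → Bool) (f : Fin d → ℝ) (Z : Matrix (Fin r) (Fin r) ℝ),
      Z.PosSemidef → A (bits β, f, Z) = c → W S (bits β, f, Z) + w0 S ≤ bd S) :
    2 ^ (l * t) < 2 ^ k * (r + 1) := by
  have hsplit : ∀ (β : Fin k → Bool) (z : (Fin d → ℝ) × Matrix (Fin r) (Fin r) ℝ),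
      ((bits β, z) : (Fin k → ℝ) × (Fin d → ℝ) × Matrix (Fin r) (Fin r) ℝ)
        = (bits β, 0) + (0, z) := by
    intro β z; simp
  have hmain := union_bound_exp (m := m) (b := b) (r := r) (I := Fin k → Bool) t l w E j ht hm D
    hD3 hD4 g G ε hε hGE hεG hgG hD2 hw hj hb
    (LinearMap.snd ℝ (Fin d → ℝ) (Matrix (Fin r) (Fin r) ℝ))
    (A.comp (LinearMap.inr ℝ (Fin k → ℝ) ((Fin d → ℝ) × Matrix (Fin r) (Fin r) ℝ)))
    (fun β => c - A (bits β, 0))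
    (fun x => (y x).1)
    (fun x => (y x).2) (fun x => psd _)
    (fun x => by
      have h1 := eqn x
      rw [hsplit, map_add] at h1
      rw [LinearMap.comp_apply, LinearMap.inr_apply, ← h1]
      abel)
    (fun S => - ((W S).comp
      (LinearMap.inr ℝ (Fin k → ℝ) ((Fin d → ℝ) × Matrix (Fin r) (Fin r) ℝ))))
    (fun S β => bd S - w0 S - W S (bits β, 0)) ?_ ?_
  · rw [Fintype.card_fun, Fintype.card_bool, Fintype.card_fin] at hmain
    exact hmain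
  · intro S x
    have h1 := value S x
    rw [hsplit, map_add] at h1
    rw [← h1, LinearMap.neg_apply, LinearMap.comp_apply, LinearMap.inr_apply]
    ring
  · intro S β z hz hA
    have hA' : A (bits β, z) = c := by
      rw [hsplit, map_add]
      rw [LinearMap.comp_apply, LinearMap.inr_apply] at hA
      rw [hA]
      abel
    have hx := bound S β z.1 z.2 hz hA'
    have e : ((bits β, z.1, z.2) : (Fin k → ℝ) × (Fin d → ℝ) × Matrix (Fin r) (Fin r) ℝ)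
        = (bits β, z) := rfl
    rw [e, hsplit, map_add] at hx
    rw [LinearMap.neg_apply, LinearMap.comp_apply, LinearMap.inr_apply]
    linarith

end Pool.Agent.TH661.LRS
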