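import Mathlib
import Pool.Agent.TH661.LRS.Region

/-!
The lower bound for mixed-binary semidefinite programs whose feasible points are indexed by the
choices `S` and whose objective functions are indexed by the bits `x`.
-/

namespace Pool.Agent.TH661.LRS

open Finset Matrix

variable {m b : ℕ}

/-- The lower bound for semidefinite programs whose feasible region is a union of pieces. -/
theorem union_bound_exp' {r : ℕ} {I : Type*} [Fintype I] [DecidableEq I] (t l w E j : ℕ)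
    (ht : 1 ≤ t) (hm : 1 ≤ m) (D : (Fin m → Bool) → ℝ)
    (hD3 : ∀ g : (Fin m → Bool) → ℝ, Dg t g → 0 ≤ ∑ y, D y * g y ^ 2)
    (hD4 : ∀ y, |D y| ≤ 2 ^ m)
    (g : (Fin m → Fin b) → (Fin m → Bool) → ℝ) (G ε : ℝ) (hε : 0 < ε) (hGE : G ≤ 2 ^ E * ε)
    (hεG : ε ≤ G)
    (hgG : ∀ S y, g S y ≤ G) (hD2 : ∀ S, ∑ y, D y * g S y ≤ -(ε * 2 ^ m))
    (hw : 2 * m + 2 * E + 19 ≤ w * t) (hj : m + 4 + E ≤ 2 * j)
    (hb : 2 ^ (l + w) * ((2 ^ j * (l * t + m + 7 + E)) * m) ≤ b)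
    {X F : Type*} [AddCommGroup X] [Module ℝ X] [AddCommGroup F] [Module ℝ F]
    (Zm : X →ₗ[ℝ] Matrix (Fin r) (Fin r) ℝ) (B : X →ₗ[ℝ] F) (c : I → F)
    (idx : (Fin m → Fin b) → I)
    (e : (Fin m → Fin b) → X) (he : ∀ S, (Zm (e S)).PosSemidef)
    (hB : ∀ S, B (e S) = c (idx S)) (L : (Fin m × Fin b → Bool) → X →ₗ[ℝ] ℝ)
    (w0 : (Fin m × Fin b → Bool) → I → ℝ)
    (hval : ∀ S x, L x (e S) + w0 x (idx S) = g S (res S x))
    (hvalid : ∀ x i z, (Zm z).PosSemidef → B z = c i → 0 ≤ L x z + w0 x i) :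
    2 ^ (l * t) < Fintype.card I * (r + 1) := by
  by_contra hr
  push Not at hr
  have hdual : ∀ (x : Fin m × Fin b → Bool) (i : I), ∃ (P : Matrix (Fin r) (Fin r) ℝ) (c0 : ℝ),
      P.PosSemidef ∧ 0 ≤ c0 ∧ ∀ S, idx S = i →
        |L x (e S) + w0 x i - (P * Zm (e S)).trace - c0| ≤ ε / (4 * 2 ^ m) := by
    intro x i
    by_cases hne : Nonempty {S // idx S = i}
    · obtain ⟨P, c0, hP, hc0, hPc⟩ := dual_approx Zm B (c i) (L x) (w0 x i)
        (fun z hz hBz => hvalid x i z hz hBz) (X := {S // idx S = i}) (fun S => e S.1)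
        (fun S => he S.1) (fun S => by rw [hB, S.2]) (ε / (4 * 2 ^ m)) (by positivity)
      exact ⟨P, c0, hP, hc0, fun S hS => hPc ⟨S, hS⟩⟩
    · exact ⟨0, 0, Matrix.PosSemidef.zero, le_rfl, fun S hS => absurd ⟨⟨S, hS⟩⟩ hne⟩
  choose P c0 hP hc0 hPc using hdual
  refine no_fact_exp (κ := (Fin r ⊕ Unit) × I) t l w E j ht hm D hD3 hD4 g G ε hε hGE hεG hgG hD2
    hw hj hb ?_
    (fun S => Matrix.blockDiagonal fun i => if i = idx S then
      Matrix.fromBlocks (Zm (e S)) 0 0 (Matrix.of fun _ _ : Unit => 1) else 0)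
    (fun S => psd_blockDiagonal fun i => ?_)
    (fun x => Matrix.blockDiagonal fun i =>
      Matrix.fromBlocks (P x i) 0 0 (Matrix.of fun _ _ : Unit => c0 x i))
    (fun x => psd_blockDiagonal fun i => psd_block (hP x i) (hc0 x i)) ?_
  · rw [Fintype.card_prod, Fintype.card_sum, Fintype.card_fin, Fintype.card_unit, mul_comm]
    exact hr
  · split_ifs
    · exact psd_block (he S) zero_le_one
    · exact Matrix.PosSemidef.zero
  · intro S x
    rw [← Matrix.blockDiagonal_mul, Matrix.trace_blockDiagonal]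
    have e1 : ∑ i, ((if i = idx S then
          Matrix.fromBlocks (Zm (e S)) 0 0 (Matrix.of fun _ _ : Unit => (1 : ℝ)) else 0) *
          Matrix.fromBlocks (P x i) 0 0 (Matrix.of fun _ _ : Unit => c0 x i)).trace
        = (P x (idx S) * Zm (e S)).trace + c0 x (idx S) := by
      rw [Finset.sum_eq_single (idx S)]
      · rw [if_pos rfl, trace_block, one_mul, Matrix.trace_mul_comm]
      · intro i _ hi
        rw [if_neg hi, Matrix.zero_mul, Matrix.trace_zero]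
      · intro hx
        exact absurd (Finset.mem_univ _) hx
    rw [e1, ← abs_neg]
    refine le_trans (le_of_eq ?_) (hPc x (idx S) S rfl)
    congr 1
    have := hval S x
    linarith

theorem region_bound_exp' {k d q r : ℕ} (t l w E j : ℕ)
    (ht : 1 ≤ t) (hm : 1 ≤ m) (D : (Fin m → Bool) → ℝ)
    (hD3 : ∀ g : (Fin m → Bool) → ℝ, Dg t g → 0 ≤ ∑ y, D y * g y ^ 2)
    (hD4 : ∀ y, |D y| ≤ 2 ^ m)
    (g : (Fin m → Fin b) → (Fin m → Bool) → ℝ) (G ε : ℝ) (hε : 0 < ε) (hGE : G ≤ 2 ^ E * ε)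
    (hεG : ε ≤ G) (hgG : ∀ S y, g S y ≤ G) (hD2 : ∀ S, ∑ y, D y * g S y ≤ -(ε * 2 ^ m))
    (hw : 2 * m + 2 * E + 19 ≤ w * t) (hj : m + 4 + E ≤ 2 * j)
    (hb : 2 ^ (l + w) * ((2 ^ j * (l * t + m + 7 + E)) * m) ≤ b)
    (A : ((Fin k → ℝ) × (Fin d → ℝ) × Matrix (Fin r) (Fin r) ℝ) →ₗ[ℝ] (Fin q → ℝ))
    (c : Fin q → ℝ)
    (y : (Fin m → Fin b) → (Fin k → Bool) × (Fin d → ℝ) × Matrix (Fin r) (Fin r) ℝ)
    (psd : ∀ S, (y S).2.2.PosSemidef) (eqn : ∀ S, A (bits (y S).1, (y S).2) = c)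
    (W : (Fin m × Fin b → Bool) →
      ((Fin k → ℝ) × (Fin d → ℝ) × Matrix (Fin r) (Fin r) ℝ) →ₗ[ℝ] ℝ)
    (w0 bd : (Fin m × Fin b → Bool) → ℝ)
    (value : ∀ S x, bd x - (W x (bits (y S).1, (y S).2) + w0 x) = g S (res S x))
    (bound : ∀ x (β : Fin k → Bool) (f : Fin d → ℝ) (Z : Matrix (Fin r) (Fin r) ℝ),
      Z.PosSemidef → A (bits β, f, Z) = c → W x (bits β, f, Z) + w0 x ≤ bd x) :
    2 ^ (l * t) < 2 ^ k * (r + 1) := by
  have hsplit : ∀ (β : Fin k → Bool) (z : (Fin d → ℝ) × Matrix (Fin r) (Fin r) ℝ),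
      ((bits β, z) : (Fin k → ℝ) × (Fin d → ℝ) × Matrix (Fin r) (Fin r) ℝ)
        = (bits β, 0) + (0, z) := by
    intro β z; simp
  have hmain := union_bound_exp' (m := m) (b := b) (r := r) (I := Fin k → Bool) t l w E j ht
    hm D hD3 hD4 g G ε hε hGE hεG hgG hD2 hw hj hb
    (LinearMap.snd ℝ (Fin d → ℝ) (Matrix (Fin r) (Fin r) ℝ))
    (A.comp (LinearMap.inr ℝ (Fin k → ℝ) ((Fin d → ℝ) × Matrix (Fin r) (Fin r) ℝ)))
    (fun β => c - A (bits β, 0))
    (fun S => (y S).1)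
    (fun S => (y S).2) (fun S => psd _)
    (fun S => by
      have h1 := eqn S
      rw [hsplit, map_add] at h1
      rw [LinearMap.comp_apply, LinearMap.inr_apply, ← h1]
      abel)
    (fun x => - ((W x).comp
      (LinearMap.inr ℝ (Fin k → ℝ) ((Fin d → ℝ) × Matrix (Fin r) (Fin r) ℝ))))
    (fun x β => bd x - w0 x - W x (bits β, 0)) ?_ ?_
  · rw [Fintype.card_fun, Fintype.card_bool, Fintype.card_fin] at hmain
    exact hmain
  · intro S x
    have h1 := value S x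
    rw [hsplit, map_add] at h1
    rw [← h1, LinearMap.neg_apply, LinearMap.comp_apply, LinearMap.inr_apply]
    ring
  · intro x β z hz hA
    have hA' : A (bits β, z) = c := by
      rw [hsplit, map_add]
      rw [LinearMap.comp_apply, LinearMap.inr_apply] at hA
      rw [hA]
      abel
    have hx := bound x β z.1 z.2 hz hA'
    have e : ((bits β, z.1, z.2) : (Fin k → ℝ) × (Fin d → ℝ) × Matrix (Fin r) (Fin r) ℝ)
        = (bits β, z) := rfl
    rw [e, hsplit, map_add] at hx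
    rw [LinearMap.neg_apply, LinearMap.comp_apply, LinearMap.inr_apply]
    linarith

end Pool.Agent.TH661.LRS
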