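import Mathlib
import Pool.Agent.TH661.LRS.CL1
import Pool.Agent.TH661.LRS.Region2

/-!
Semidefinite programs for the clique problem.
-/

namespace Pool.Agent.TH661.LRS

open Finset Matrix

open Classical in
/-- The number of edges of the graph `G` with both ends in the vertex set `K` (half the number of
ordered adjacent pairs). -/
noncomputable def edgesIn {n : ℕ} (G : SimpleGraph (Fin n)) (K : Finset (Fin n)) : ℝ :=
  (∑ a ∈ K, ∑ b ∈ K, if G.Adj a b then (1 : ℝ) else 0) / 2

/-- A mixed-binary semidefinite programming formulation, with gap `ε`, of the problem to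
distinguish the graphs on `n` vertices with a `k`-clique from those without cliques of more than
`α k` vertices. It has `q` binary variables, any number `d` of free real variables, a positive
semidefinite matrix variable of order `r`, and any number `e` of linear equations
`A (β, f, Z) = c`; this feasible region does not depend on the graph. Every `k`-set `K` of
vertices has a feasible point `y K`. Every graph has an affine objective function, with value the
number of edges inside `K` at `y K` (so its maximum is at least `k.choose 2` if there is a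
`k`-clique). If the graph has no clique of more than `α k` vertices then the objective function
is at most `k.choose 2 - ε` on the whole feasible region. -/
structure CliqueSDP (n k q r : ℕ) (α ε : ℝ) where
  d : ℕ
  e : ℕ
  A : ((Fin q → ℝ) × (Fin d → ℝ) × Matrix (Fin r) (Fin r) ℝ) →ₗ[ℝ] (Fin e → ℝ)
  c : Fin e → ℝ
  y : Finset (Fin n) → (Fin q → Bool) × (Fin d → ℝ) × Matrix (Fin r) (Fin r) ℝ
  w : SimpleGraph (Fin n) → ((Fin q → ℝ) × (Fin d → ℝ) × Matrix (Fin r) (Fin r) ℝ) →ₗ[ℝ] ℝ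
  w0 : SimpleGraph (Fin n) → ℝ
  psd : ∀ K, K.card = k → (y K).2.2.PosSemidef
  eqn : ∀ K, K.card = k → A (bits (y K).1, (y K).2) = c
  value : ∀ G K, K.card = k → w G (bits (y K).1, (y K).2) + w0 G = edgesIn G K
  bound : ∀ G : SimpleGraph (Fin n), (G.cliqueNum : ℝ) ≤ α * k →
    ∀ (β : Fin q → Bool) (f : Fin d → ℝ) (Z : Matrix (Fin r) (Fin r) ℝ),
    Z.PosSemidef → A (bits β, f, Z) = c → w G (bits β, f, Z) + w0 G ≤ k.choose 2 - ε

/-- A smaller gap is a weaker requirement. -/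
def CliqueSDP.weaken {n k q r : ℕ} {α ε ε' : ℝ} (F : CliqueSDP n k q r α ε) (h : ε' ≤ ε) :
    CliqueSDP n k q r α ε' where
  d := F.d
  e := F.e
  A := F.A
  c := F.c
  y := F.y
  w := F.w
  w0 := F.w0
  psd := F.psd
  eqn := F.eqn
  value := F.value
  bound := fun G hG β f Z hZ hA => (F.bound G hG β f Z hZ hA).trans (by linarith)

section gadget

variable {m b k ℓ N : ℕ}

/-- The vertices: a tuple of equations and copies of all its variables. -/
abbrev CV (b k ℓ : ℕ) : Type := Fin k × (Fin ℓ → Fin 3 → Fin b)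

/-- The copies of `u` and `v` agree. -/
def agr (c : Fin N → Fin 3 → Fin m) (σ : Fin k → Fin ℓ → Fin N) (u v : CV b k ℓ) : Prop :=
  ∀ s i s' i', c (σ u.1 s) i = c (σ v.1 s') i' → u.2 s i = v.2 s' i'

theorem agr.symm {c : Fin N → Fin 3 → Fin m} {σ : Fin k → Fin ℓ → Fin N} {u v : CV b k ℓ}
    (h : agr c σ u v) : agr c σ v u := fun s i s' i' e => (h s' i' s i e.symm).symm

/-- The equations of `u` hold at its copies. -/
def sati (c : Fin N → Fin 3 → Fin m) (σ : Fin k → Fin ℓ → Fin N) (rhs : Fin N → Bool)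
    (x : Fin m × Fin b → Bool) (u : CV b k ℓ) : Prop :=
  ∀ s, xor (x (c (σ u.1 s) 0, u.2 s 0)) (xor (x (c (σ u.1 s) 1, u.2 s 1))
    (x (c (σ u.1 s) 2, u.2 s 2))) = rhs (σ u.1 s)

/-- The graph. -/
def GC (c : Fin N → Fin 3 → Fin m) (σ : Fin k → Fin ℓ → Fin N) (rhs : Fin N → Bool)
    (x : Fin m × Fin b → Bool) : SimpleGraph (CV b k ℓ) where
  Adj u v := u.1 ≠ v.1 ∧ agr c σ u u ∧ agr c σ v v ∧ agr c σ u v ∧ sati c σ rhs x u ∧
    sati c σ rhs x v
  symm := ⟨fun _ _ h => ⟨h.1.symm, h.2.2.1, h.2.1, h.2.2.2.1.symm, h.2.2.2.2.2, h.2.2.2.2.1⟩⟩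
  loopless := ⟨fun _ h => h.1 rfl⟩

/-- The vertices chosen by `S`. -/
def pt (c : Fin N → Fin 3 → Fin m) (σ : Fin k → Fin ℓ → Fin N) (S : Fin m → Fin b) (j : Fin k) :
    CV b k ℓ := (j, fun s i => S (c (σ j s) i))

/-- All the equations of the tuple hold. -/
def holds (c : Fin N → Fin 3 → Fin m) (rhs : Fin N → Bool) (w : Fin ℓ → Fin N)
    (y : Fin m → Bool) : Prop := ∀ s, par (c (w s)) y = rhs (w s)

theorem GC_pt (c : Fin N → Fin 3 → Fin m) (σ : Fin k → Fin ℓ → Fin N) (rhs : Fin N → Bool)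
    (x : Fin m × Fin b → Bool) (S : Fin m → Fin b) (j j' : Fin k) :
    (GC c σ rhs x).Adj (pt c σ S j) (pt c σ S j') ↔
      j ≠ j' ∧ holds c rhs (σ j) (res S x) ∧ holds c rhs (σ j') (res S x) := by
  constructor
  · rintro ⟨h1, -, -, -, h2, h3⟩
    exact ⟨h1, h2, h3⟩
  · rintro ⟨h1, h2, h3⟩
    have key : ∀ j j', agr c σ (pt c σ S j) (pt c σ S j') := by
      intro j j' s i s' i' e
      show S _ = S _
      exact congrArg S e
    exact ⟨h1, key _ _, key _ _, key _ _, h2, h3⟩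

/-- Cliques are small. -/
theorem GC_clique (hb : 0 < b) (c : Fin N → Fin 3 → Fin m) (σ : Fin k → Fin ℓ → Fin N)
    (rhs : Fin N → Bool) (x : Fin m × Fin b → Bool) (s : Finset (CV b k ℓ))
    (hs : (GC c σ rhs x).IsClique s) (h2 : 2 ≤ s.card) :
    ∃ y : Fin m → Bool, ∃ T : Finset (Fin k), T.card = s.card ∧
      ∀ j ∈ T, holds c rhs (σ j) y := by
  classical
  have hne : ∀ u ∈ s, ∃ v ∈ s, (GC c σ rhs x).Adj u v := by
    intro u hu
    obtain ⟨v, hv, huv⟩ := Finset.exists_mem_ne (by omega : 1 < s.card) u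
    exact ⟨v, hv, hs (Finset.mem_coe.2 hu) (Finset.mem_coe.2 hv) huv.symm⟩
  have hag : ∀ u ∈ s, ∀ v ∈ s, agr c σ u v := by
    intro u hu v hv
    by_cases huv : u = v
    · subst huv
      obtain ⟨v, _, h⟩ := hne u hu
      exact h.2.1
    · exact (hs (Finset.mem_coe.2 hu) (Finset.mem_coe.2 hv) huv).2.2.2.1
  set S : Fin m → Fin b := fun i =>
    if h : ∃ u ∈ s, ∃ p : Fin ℓ × Fin 3, c (σ u.1 p.1) p.2 = i then
      h.choose.2 h.choose_spec.2.choose.1 h.choose_spec.2.choose.2 else ⟨0, hb⟩ with hS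
  have hSu : ∀ u ∈ s, ∀ s' i', S (c (σ u.1 s') i') = u.2 s' i' := by
    intro u hu s' i'
    have h : ∃ v ∈ s, ∃ p : Fin ℓ × Fin 3, c (σ v.1 p.1) p.2 = c (σ u.1 s') i' :=
      ⟨u, hu, (s', i'), rfl⟩
    simp only [hS, dif_pos h]
    exact hag _ h.choose_spec.1 _ hu _ _ _ _ h.choose_spec.2.choose_spec
  refine ⟨res S x, s.image Prod.fst, ?_, ?_⟩
  · refine Finset.card_image_of_injOn fun u hu v hv huv => ?_
    by_contra hne'
    exact (hs hu hv hne').1 huv
  · intro j hj
    rw [Finset.mem_image] at hj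
    obtain ⟨u, hu, rfl⟩ := hj
    obtain ⟨v, _, h⟩ := hne u hu
    intro s'
    have h3 := h.2.2.2.2.1 s'
    show xor (x (_, S _)) (xor (x (_, S _)) (x (_, S _))) = _
    rw [hSu u hu, hSu u hu, hSu u hu]
    exact h3

theorem GC_cliqueNum {n : ℕ} (ι : CV b k ℓ ↪ Fin n) (hb : 0 < b) (c : Fin N → Fin 3 → Fin m)
    (σ : Fin k → Fin ℓ → Fin N) (rhs : Fin N → Bool) (x : Fin m × Fin b → Bool) (M : ℝ)
    (hM : 1 ≤ M) (hσ : ∀ (y : Fin m → Bool) (T : Finset (Fin k)),
      (∀ j ∈ T, holds c rhs (σ j) y) → (T.card : ℝ) ≤ M) :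
    (((GC c σ rhs x).map ι).cliqueNum : ℝ) ≤ M := by
  classical
  obtain ⟨s, hs⟩ := ((GC c σ rhs x).map ι).exists_isNClique_cliqueNum
  rw [← hs.card_eq]
  rcases Nat.lt_or_ge s.card 2 with h2 | h2
  · have : (s.card : ℝ) ≤ 1 := by
      have : s.card ≤ 1 := by omega
      exact_mod_cast this
    linarith
  · set s' : Finset (CV b k ℓ) := univ.filter fun u => ι u ∈ s with hs'
    have hmap : s'.map ι = s := by
      ext v
      rw [Finset.mem_map]
      constructor
      · rintro ⟨u, hu, rfl⟩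
        rw [hs', Finset.mem_filter] at hu
        exact hu.2
      · intro hv
        obtain ⟨w, hw, hvw⟩ := Finset.exists_mem_ne (by omega : 1 < s.card) v
        have h3 := hs.isClique (Finset.mem_coe.2 hv) (Finset.mem_coe.2 hw) hvw.symm
        rw [SimpleGraph.map_adj] at h3
        obtain ⟨a, _, _, h4, _⟩ := h3
        refine ⟨a, ?_, h4⟩
        rw [hs', Finset.mem_filter, h4]
        exact ⟨Finset.mem_univ _, hv⟩
    have hcard : s'.card = s.card := by rw [← hmap, Finset.card_map]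
    have hcl : (GC c σ rhs x).IsClique s' := by
      intro u hu v hv huv
      rw [hs', Finset.mem_coe, Finset.mem_filter] at hu hv
      have h3 := hs.isClique (Finset.mem_coe.2 hu.2) (Finset.mem_coe.2 hv.2)
        (fun h => huv (ι.injective h))
      rwa [SimpleGraph.map_adj_apply] at h3
    obtain ⟨y, T, hT, hy⟩ := GC_clique hb c σ rhs x s' hcl (by omega)
    have := hσ y T hy
    rw [hT, hcard] at this
    exact this

open Classical in
/-- Half the number of the ordered pairs of tuples which do not both hold, minus `ε`. -/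
noncomputable def gcl (c : Fin N → Fin 3 → Fin m) (σ : Fin k → Fin ℓ → Fin N) (rhs : Fin N → Bool)
    (ε : ℝ) (y : Fin m → Bool) : ℝ :=
  (∑ j, ∑ j', if j ≠ j' ∧ ∃ e ∈ univ.image (σ j) ∪ univ.image (σ j'), ¬ par (c e) y = rhs e
    then (1 : ℝ) else 0) / 2 - ε

theorem gcl_le (c : Fin N → Fin 3 → Fin m) (σ : Fin k → Fin ℓ → Fin N) (rhs : Fin N → Bool)
    {ε : ℝ} (hε : 0 ≤ ε) (y : Fin m → Bool) : gcl c σ rhs ε y ≤ (k : ℝ) ^ 2 := by
  classical
  unfold gcl
  have h1 : (∑ j : Fin k, ∑ j' : Fin k, if j ≠ j' ∧ ∃ e ∈ univ.image (σ j) ∪ univ.image (σ j'),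
      ¬ par (c e) y = rhs e then (1 : ℝ) else 0) ≤ ∑ _j : Fin k, ∑ _j' : Fin k, (1 : ℝ) :=
    Finset.sum_le_sum fun j _ => Finset.sum_le_sum fun j' _ => by split_ifs <;> norm_num
  have h2 : ∑ _j : Fin k, ∑ _j' : Fin k, (1 : ℝ) = (k : ℝ) ^ 2 := by
    simp [sq]
  rw [h2] at h1
  have h3 : (0 : ℝ) ≤ (k : ℝ) ^ 2 := by positivity
  linarith

theorem gcl_exp {t : ℕ} (D : (Fin m → Bool) → ℝ) (hD1 : ∑ y, D y = 2 ^ m)
    (hD3 : ∀ g : (Fin m → Bool) → ℝ, Dg t g → 0 ≤ ∑ y, D y * g y ^ 2)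
    (c : Fin N → Fin 3 → Fin m) (σ : Fin k → Fin ℓ → Fin N) (rhs : Fin N → Bool)
    (hD2 : ∀ e, ∑ y, D y * (if par (c e) y = rhs e then 0 else 1) = 0)
    (hℓ : 6 * ℓ ≤ t) (ε : ℝ) :
    ∑ y, D y * gcl c σ rhs ε y = -(ε * 2 ^ m) := by
  classical
  unfold gcl
  have h1 : ∀ y, D y * ((∑ j, ∑ j', if j ≠ j' ∧ ∃ e ∈ univ.image (σ j) ∪ univ.image (σ j'),
      ¬ par (c e) y = rhs e then (1 : ℝ) else 0) / 2 - ε)
      = (∑ j, ∑ j', D y * (if j ≠ j' ∧ ∃ e ∈ univ.image (σ j) ∪ univ.image (σ j'),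
      ¬ par (c e) y = rhs e then (1 : ℝ) else 0)) / 2 - D y * ε := by
    intro y
    simp only [← Finset.mul_sum]
    ring
  simp only [h1]
  rw [Finset.sum_sub_distrib, ← Finset.sum_mul, hD1, ← Finset.sum_div, Finset.sum_comm]
  have h2 : ∑ j, ∑ y, ∑ j', D y * (if j ≠ j' ∧ ∃ e ∈ univ.image (σ j) ∪ univ.image (σ j'),
      ¬ par (c e) y = rhs e then (1 : ℝ) else 0) = 0 := by
    refine Finset.sum_eq_zero fun j _ => ?_
    rw [Finset.sum_comm]
    refine Finset.sum_eq_zero fun j' _ => ?_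
    by_cases hj : j = j'
    · refine Finset.sum_eq_zero fun y _ => ?_
      rw [if_neg (fun h => h.1 hj), mul_zero]
    · have h3 := viol_zero D hD3 c rhs hD2 (univ.image (σ j) ∪ univ.image (σ j')) (by
        have h4 : (univ.image (σ j)).card ≤ ℓ := by
          simpa using (Finset.card_image_le (s := (univ : Finset (Fin ℓ))) (f := σ j))
        have h5 : (univ.image (σ j')).card ≤ ℓ := by
          simpa using (Finset.card_image_le (s := (univ : Finset (Fin ℓ))) (f := σ j'))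
        have h6 := Finset.card_union_le (univ.image (σ j)) (univ.image (σ j'))
        omega)
      refine Eq.trans ?_ h3
      refine Finset.sum_congr rfl fun y _ => ?_
      congr 1
      simp only [ne_eq, hj, not_false_eq_true, true_and]
  rw [h2]
  ring

/-- The vertices chosen by `S`, in the big graph. -/
def selE {n : ℕ} (ι : CV b k ℓ ↪ Fin n) (c : Fin N → Fin 3 → Fin m)
    (σ : Fin k → Fin ℓ → Fin N) (S : Fin m → Fin b) : Fin k ↪ Fin n where
  toFun j := ι (pt c σ S j)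
  inj' _ _ h := congrArg Prod.fst (ι.injective h)

open Classical in
theorem edgesIn_sel {n : ℕ} (ι : CV b k ℓ ↪ Fin n) (c : Fin N → Fin 3 → Fin m)
    (σ : Fin k → Fin ℓ → Fin N) (rhs : Fin N → Bool) (S : Fin m → Fin b)
    (x : Fin m × Fin b → Bool) :
    edgesIn ((GC c σ rhs x).map ι) (univ.map (selE ι c σ S))
      = (∑ j : Fin k, ∑ j' : Fin k, if j ≠ j' ∧ holds c rhs (σ j) (res S x) ∧
        holds c rhs (σ j') (res S x) then (1 : ℝ) else 0) / 2 := by
  have hadj : ∀ j j' : Fin k, ((GC c σ rhs x).map ι).Adj (selE ι c σ S j) (selE ι c σ S j') ↔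
      j ≠ j' ∧ holds c rhs (σ j) (res S x) ∧ holds c rhs (σ j') (res S x) := by
    intro j j'
    show ((GC c σ rhs x).map ι).Adj (ι (pt c σ S j)) (ι (pt c σ S j')) ↔ _
    rw [SimpleGraph.map_adj_apply, GC_pt]
  unfold edgesIn
  congr 1
  rw [Finset.sum_map]
  refine Finset.sum_congr rfl fun j _ => ?_
  rw [Finset.sum_map]
  refine Finset.sum_congr rfl fun j' _ => ?_
  by_cases h : j ≠ j' ∧ holds c rhs (σ j) (res S x) ∧ holds c rhs (σ j') (res S x)
  · rw [if_pos h, if_pos ((hadj j j').2 h)]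
  · rw [if_neg h, if_neg (fun h' => h ((hadj j j').1 h'))]

theorem gcl_eq {n : ℕ} (ι : CV b k ℓ ↪ Fin n) (c : Fin N → Fin 3 → Fin m)
    (σ : Fin k → Fin ℓ → Fin N) (rhs : Fin N → Bool) (ε : ℝ) (S : Fin m → Fin b)
    (x : Fin m × Fin b → Bool) :
    (k.choose 2 - ε : ℝ) - edgesIn ((GC c σ rhs x).map ι) (univ.map (selE ι c σ S))
      = gcl c σ rhs ε (res S x) := by
  classical
  rw [edgesIn_sel]
  unfold gcl
  have h1 : ∀ j j' : Fin k, (if j ≠ j' ∧ ∃ e ∈ univ.image (σ j) ∪ univ.image (σ j'),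
      ¬ par (c e) (res S x) = rhs e then (1 : ℝ) else 0)
      = (if j ≠ j' then (1 : ℝ) else 0) - if j ≠ j' ∧ holds c rhs (σ j) (res S x) ∧
        holds c rhs (σ j') (res S x) then (1 : ℝ) else 0 := by
    intro j j'
    by_cases hj : j = j'
    · simp [hj]
    · by_cases hh : holds c rhs (σ j) (res S x) ∧ holds c rhs (σ j') (res S x)
      · rw [if_neg, if_pos hj, if_pos ⟨hj, hh⟩, sub_self]
        rintro ⟨_, e, he, hne⟩
        rw [Finset.mem_union, Finset.mem_image, Finset.mem_image] at he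
        rcases he with ⟨s, _, rfl⟩ | ⟨s, _, rfl⟩
        · exact hne (hh.1 s)
        · exact hne (hh.2 s)
      · rw [if_pos, if_pos hj, if_neg (fun h => hh h.2), sub_zero]
        refine ⟨hj, ?_⟩
        by_contra hcon
        push Not at hcon
        apply hh
        constructor
        · intro s
          exact hcon _ (Finset.mem_union_left _ (Finset.mem_image_of_mem _ (Finset.mem_univ s)))
        · intro s
          exact hcon _ (Finset.mem_union_right _ (Finset.mem_image_of_mem _ (Finset.mem_univ s)))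
  simp only [h1, Finset.sum_sub_distrib]
  have h2 : ∑ j : Fin k, ∑ j' : Fin k, (if j ≠ j' then (1 : ℝ) else 0) = k * k - k := by
    have h3 : ∀ j : Fin k, ∑ j' : Fin k, (if j ≠ j' then (1 : ℝ) else 0) = k - 1 := by
      intro j
      have h4 : ∀ j' : Fin k, (if j ≠ j' then (1 : ℝ) else 0) = 1 - if j = j' then 1 else 0 := by
        intro j'
        by_cases h : j = j' <;> simp [h]
      simp only [h4, Finset.sum_sub_distrib]
      simp
    simp only [h3]
    simp
    try ring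
  rw [h2, Nat.cast_choose_two]
  ring

end gadget

end Pool.Agent.TH661.LRS
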