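import Mathlib
import Pool.Agent.TH661.LRS.Region
import Pool.Agent.TH661.LRS.Sys

/-!
Semidefinite programs for graph isomorphism.
-/

namespace Pool.Agent.TH661.LRS

open Finset Matrix

section model

variable {n : ℕ}

open Classical in
/-- The number of pairs of vertices `u < v` for which the bijection `π` preserves adjacency and
non-adjacency. It is `n.choose 2` if and only if `π` is an isomorphism from `G` to `H`. -/
noncomputable def agree (G H : SimpleGraph (Fin n)) (π : Equiv.Perm (Fin n)) : ℕ :=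
  ((univ : Finset (Fin n × Fin n)).filter
    fun p => p.1 < p.2 ∧ (G.Adj p.1 p.2 ↔ H.Adj (π p.1) (π p.2))).card

/-- At most `s` vertices of `G` are not isolated. -/
def Small (s : ℕ) (G : SimpleGraph (Fin n)) : Prop := G.support.ncard ≤ s

/-- A mixed-binary semidefinite programming formulation, with gap `ε`, of the isomorphism problem
for pairs of graphs on `n` vertices with at most `s` non-isolated vertices. It has `k` binary
variables, any number `d` of free real variables, a positive semidefinite matrix variable of order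
`r`, and any number `q` of linear equations `A (β, f, Z) = c`; this feasible region does not depend
on the graphs. Every bijection `π` has a feasible point `y π`. Every pair of graphs has an affine
objective function, whose value at `y π` is the number of pairs of vertices on which `π` preserves
adjacency and non-adjacency (it is `n.choose 2` if `π` is an isomorphism). If the graphs are not
isomorphic then the objective function is at most `n.choose 2 - ε` on the whole feasible region. -/
structure IsoSDP (n k r s : ℕ) (ε : ℝ) where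
  d : ℕ
  q : ℕ
  A : ((Fin k → ℝ) × (Fin d → ℝ) × Matrix (Fin r) (Fin r) ℝ) →ₗ[ℝ] (Fin q → ℝ)
  c : Fin q → ℝ
  y : Equiv.Perm (Fin n) → (Fin k → Bool) × (Fin d → ℝ) × Matrix (Fin r) (Fin r) ℝ
  w : SimpleGraph (Fin n) → SimpleGraph (Fin n) →
    ((Fin k → ℝ) × (Fin d → ℝ) × Matrix (Fin r) (Fin r) ℝ) →ₗ[ℝ] ℝ
  w0 : SimpleGraph (Fin n) → SimpleGraph (Fin n) → ℝ
  psd : ∀ π, (y π).2.2.PosSemidef
  eqn : ∀ π, A (bits (y π).1, (y π).2) = c
  value : ∀ G H, Small s G → Small s H → ∀ π,
    w G H (bits (y π).1, (y π).2) + w0 G H = agree G H π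
  bound : ∀ G H, Small s G → Small s H → ¬ Nonempty (G ≃g H) →
    ∀ (β : Fin k → Bool) (f : Fin d → ℝ) (Z : Matrix (Fin r) (Fin r) ℝ),
    Z.PosSemidef → A (bits β, f, Z) = c → w G H (bits β, f, Z) + w0 G H ≤ n.choose 2 - ε

end model

section gadget

variable {m b N : ℕ}

/-- The vertices: `(i, j, β)` for the value `β` of the `j`-th copy of the variable `i`, and
`(e, J, α)` for the values `α` of the copies `J` of the variables of the equation `e`. -/
abbrev GV (m b N : ℕ) : Type :=
  (Fin m × Fin b × Bool) ⊕ (Fin N × (Fin 3 → Fin b) × (Fin 3 → Bool))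

/-- The parity. -/
def pa (α : Fin 3 → Bool) : Bool := xor (α 0) (xor (α 1) (α 2))

/-- Adjacency. -/
def grel (c : Fin N → Fin 3 → Fin m) (S : Fin m → Fin b) (rhs : Fin N → Bool) :
    GV m b N → GV m b N → Prop
  | Sum.inl (i, j, β), Sum.inl (i', j', β') => i = i' ∧ j = S i ∧ j' = S i ∧ β ≠ β'
  | Sum.inl (i, j, β), Sum.inr (e, J, α) =>
      J = (fun s => S (c e s)) ∧ j = S i ∧ pa α = rhs e ∧ ∃ s, c e s = i ∧ α s = β
  | Sum.inr (e, J, α), Sum.inl (i, j, β) =>
      J = (fun s => S (c e s)) ∧ j = S i ∧ pa α = rhs e ∧ ∃ s, c e s = i ∧ α s = β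
  | Sum.inr (e, J, α), Sum.inr (e', J', α') =>
      e = e' ∧ J = (fun s => S (c e s)) ∧ J' = (fun s => S (c e s)) ∧ α ≠ α' ∧
        pa α = rhs e ∧ pa α' = rhs e

/-- The graph of the homogeneous or inhomogeneous system on the copies selected by `S`. -/
def Gr (c : Fin N → Fin 3 → Fin m) (S : Fin m → Fin b) (rhs : Fin N → Bool) :
    SimpleGraph (GV m b N) where
  Adj := grel c S rhs
  symm := ⟨by
    rintro (⟨i, j, β⟩ | ⟨e, J, α⟩) (⟨i', j', β'⟩ | ⟨e', J', α'⟩) h
    · obtain ⟨rfl, h2, h3, h4⟩ := h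
      exact ⟨rfl, h3, h2, h4.symm⟩
    · exact h
    · exact h
    · obtain ⟨rfl, h2, h3, h4, h5, h6⟩ := h
      exact ⟨rfl, h3, h2, h4.symm, h6, h5⟩⟩
  loopless := ⟨by
    rintro (⟨i, j, β⟩ | ⟨e, J, α⟩) h
    · exact h.2.2.2 rfl
    · exact h.2.2.2.1 rfl⟩

/-- The permutation of the vertices which adds `x`. -/
def shift (c : Fin N → Fin 3 → Fin m) (x : Fin m × Fin b → Bool) : GV m b N → GV m b N
  | Sum.inl (i, j, β) => Sum.inl (i, j, xor β (x (i, j)))
  | Sum.inr (e, J, α) => Sum.inr (e, J, fun s => xor (α s) (x (c e s, J s)))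

theorem shift_invol (c : Fin N → Fin 3 → Fin m) (x : Fin m × Fin b → Bool) :
    Function.Involutive (shift c x) := by
  rintro (⟨i, j, β⟩ | ⟨e, J, α⟩)
  · simp [shift]
  · simp [shift]

/-- The permutation of the vertices which adds `x`, as a permutation. -/
def shiftP (c : Fin N → Fin 3 → Fin m) (x : Fin m × Fin b → Bool) : Equiv.Perm (GV m b N) :=
  (shift_invol c x).toPerm

/-- Critical pairs: adjacency of the image depends on the equation `e`. -/
def crit (c : Fin N → Fin 3 → Fin m) (S : Fin m → Fin b) (e0 : Fin N) :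
    GV m b N → GV m b N → Prop
  | Sum.inl _, Sum.inl _ => False
  | Sum.inl (i, j, β), Sum.inr (e, J, α) =>
      e = e0 ∧ J = (fun s => S (c e s)) ∧ j = S i ∧ ∃ s, c e s = i ∧ α s = β
  | Sum.inr (e, J, α), Sum.inl (i, j, β) =>
      e = e0 ∧ J = (fun s => S (c e s)) ∧ j = S i ∧ ∃ s, c e s = i ∧ α s = β
  | Sum.inr (e, J, α), Sum.inr (e', J', α') =>
      e = e0 ∧ e' = e0 ∧ J = (fun s => S (c e s)) ∧ J' = (fun s => S (c e s)) ∧ α ≠ α' ∧
        pa α = pa α'

theorem pa_xor (α β : Fin 3 → Bool) : pa (fun s => xor (α s) (β s)) = xor (pa α) (pa β) := by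
  show xor (xor (α 0) (β 0)) (xor (xor (α 1) (β 1)) (xor (α 2) (β 2)))
    = xor (xor (α 0) (xor (α 1) (α 2))) (xor (β 0) (xor (β 1) (β 2)))
  generalize α 0 = a0; generalize α 1 = a1; generalize α 2 = a2
  generalize β 0 = b0; generalize β 1 = b1; generalize β 2 = b2
  revert a0 a1 a2 b0 b1 b2
  decide

theorem bool_lem (p y r : Bool) : (¬ (p = false ↔ xor p y = r)) ↔ ¬ y = r := by
  cases p <;> cases y <;> cases r <;> decide

/-- Disagreements come from critical pairs of violated equations. -/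
theorem disagree_iff (c : Fin N → Fin 3 → Fin m) (S : Fin m → Fin b) (rhs : Fin N → Bool)
    (x : Fin m × Fin b → Bool) (u v : GV m b N) :
    (¬ ((Gr c S (fun _ => false)).Adj u v ↔ (Gr c S rhs).Adj (shift c x u) (shift c x v))) ↔
      ∃ e, crit c S e u v ∧ ¬ par (c e) (res S x) = rhs e := by
  have hx : ∀ e, pa (fun s => x (c e s, S (c e s))) = par (c e) (res S x) := fun e => rfl
  rcases u with ⟨i, j, β⟩ | ⟨e, J, α⟩ <;> rcases v with ⟨i', j', β'⟩ | ⟨e', J', α'⟩
  · -- two variable vertices
    constructor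
    · intro h
      exfalso
      apply h
      show (i = i' ∧ j = S i ∧ j' = S i ∧ β ≠ β') ↔ (i = i' ∧ j = S i ∧ j' = S i ∧
        xor β (x (i, j)) ≠ xor β' (x (i', j')))
      constructor
      · rintro ⟨rfl, rfl, rfl, h4⟩
        refine ⟨rfl, rfl, rfl, ?_⟩
        intro h5
        apply h4
        revert h5
        cases β <;> cases β' <;> cases x (i, S i) <;> decide
      · rintro ⟨rfl, rfl, rfl, h4⟩
        refine ⟨rfl, rfl, rfl, ?_⟩
        intro h5
        apply h4
        rw [h5]
    · rintro ⟨e, h, _⟩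
      exact absurd h id
  · -- variable and equation
    show (¬ ((J' = (fun s => S (c e' s)) ∧ j = S i ∧ pa α' = false ∧ ∃ s, c e' s = i ∧ α' s = β) ↔
      (J' = (fun s => S (c e' s)) ∧ j = S i ∧
        pa (fun s => xor (α' s) (x (c e' s, J' s))) = rhs e' ∧
        ∃ s, c e' s = i ∧ xor (α' s) (x (c e' s, J' s)) = xor β (x (i, j))))) ↔
      ∃ e, (e' = e ∧ J' = (fun s => S (c e' s)) ∧ j = S i ∧ ∃ s, c e' s = i ∧ α' s = β) ∧
        ¬ par (c e) (res S x) = rhs e
    by_cases hJ : J' = fun s => S (c e' s)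
    swap
    · constructor
      · intro h
        exact absurd ⟨fun h' => absurd h'.1 hJ, fun h' => absurd h'.1 hJ⟩ h
      · rintro ⟨e, ⟨_, h, _⟩, _⟩
        exact absurd h hJ
    by_cases hj : j = S i
    swap
    · constructor
      · intro h
        exact absurd ⟨fun h' => absurd h'.2.1 hj, fun h' => absurd h'.2.1 hj⟩ h
      · rintro ⟨e, ⟨_, _, h, _⟩, _⟩
        exact absurd h hj
    have hs : (∃ s, c e' s = i ∧ xor (α' s) (x (c e' s, J' s)) = xor β (x (i, j))) ↔
        ∃ s, c e' s = i ∧ α' s = β := by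
      subst hJ; subst hj
      constructor
      · rintro ⟨s, rfl, h⟩
        refine ⟨s, rfl, ?_⟩
        revert h
        cases α' s <;> cases β <;> cases x (c e' s, S (c e' s)) <;> decide
      · rintro ⟨s, rfl, h⟩
        exact ⟨s, rfl, by rw [h]⟩
    have hp : pa (fun s => xor (α' s) (x (c e' s, J' s))) = xor (pa α')
        (par (c e') (res S x)) := by
      rw [← hx e', ← pa_xor, hJ]
    rw [hs, hp]
    by_cases hex : ∃ s, c e' s = i ∧ α' s = β
    swap
    · constructor
      · intro h
        exact absurd ⟨fun h' => absurd h'.2.2.2 hex, fun h' => absurd h'.2.2.2 hex⟩ h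
      · rintro ⟨e, ⟨_, _, _, h⟩, _⟩
        exact absurd h hex
    constructor
    · intro h
      refine ⟨e', ⟨rfl, hJ, hj, hex⟩, ?_⟩
      rw [← bool_lem (pa α')]
      intro h2
      apply h
      constructor
      · rintro ⟨_, _, h3, _⟩
        exact ⟨hJ, hj, h2.1 h3, hex⟩
      · rintro ⟨_, _, h3, _⟩
        exact ⟨hJ, hj, h2.2 h3, hex⟩
    · rintro ⟨e, ⟨rfl, _⟩, h⟩ h2
      rw [← bool_lem (pa α')] at h
      apply h
      constructor
      · intro h3
        exact (h2.1 ⟨hJ, hj, h3, hex⟩).2.2.1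
      · intro h3
        exact (h2.2 ⟨hJ, hj, h3, hex⟩).2.2.1
  · -- equation and variable
    show (¬ ((J = (fun s => S (c e s)) ∧ j' = S i' ∧ pa α = false ∧ ∃ s, c e s = i' ∧ α s = β') ↔
      (J = (fun s => S (c e s)) ∧ j' = S i' ∧
        pa (fun s => xor (α s) (x (c e s, J s))) = rhs e ∧
        ∃ s, c e s = i' ∧ xor (α s) (x (c e s, J s)) = xor β' (x (i', j'))))) ↔
      ∃ e1, (e = e1 ∧ J = (fun s => S (c e s)) ∧ j' = S i' ∧ ∃ s, c e s = i' ∧ α s = β') ∧
        ¬ par (c e1) (res S x) = rhs e1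
    by_cases hJ : J = fun s => S (c e s)
    swap
    · constructor
      · intro h
        exact absurd ⟨fun h' => absurd h'.1 hJ, fun h' => absurd h'.1 hJ⟩ h
      · rintro ⟨e, ⟨_, h, _⟩, _⟩
        exact absurd h hJ
    by_cases hj : j' = S i'
    swap
    · constructor
      · intro h
        exact absurd ⟨fun h' => absurd h'.2.1 hj, fun h' => absurd h'.2.1 hj⟩ h
      · rintro ⟨e, ⟨_, _, h, _⟩, _⟩
        exact absurd h hj
    have hs : (∃ s, c e s = i' ∧ xor (α s) (x (c e s, J s)) = xor β' (x (i', j'))) ↔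
        ∃ s, c e s = i' ∧ α s = β' := by
      subst hJ; subst hj
      constructor
      · rintro ⟨s, rfl, h⟩
        refine ⟨s, rfl, ?_⟩
        revert h
        cases α s <;> cases β' <;> cases x (c e s, S (c e s)) <;> decide
      · rintro ⟨s, rfl, h⟩
        exact ⟨s, rfl, by rw [h]⟩
    have hp : pa (fun s => xor (α s) (x (c e s, J s))) = xor (pa α)
        (par (c e) (res S x)) := by
      rw [← hx e, ← pa_xor, hJ]
    rw [hs, hp]
    by_cases hex : ∃ s, c e s = i' ∧ α s = β'
    swap
    · constructor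
      · intro h
        exact absurd ⟨fun h' => absurd h'.2.2.2 hex, fun h' => absurd h'.2.2.2 hex⟩ h
      · rintro ⟨e, ⟨_, _, _, h⟩, _⟩
        exact absurd h hex
    constructor
    · intro h
      refine ⟨e, ⟨rfl, hJ, hj, hex⟩, ?_⟩
      rw [← bool_lem (pa α)]
      intro h2
      apply h
      constructor
      · rintro ⟨_, _, h3, _⟩
        exact ⟨hJ, hj, h2.1 h3, hex⟩
      · rintro ⟨_, _, h3, _⟩
        exact ⟨hJ, hj, h2.2 h3, hex⟩
    · rintro ⟨e1, ⟨rfl, _⟩, h⟩ h2
      rw [← bool_lem (pa α)] at h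
      apply h
      constructor
      · intro h3
        exact (h2.1 ⟨hJ, hj, h3, hex⟩).2.2.1
      · intro h3
        exact (h2.2 ⟨hJ, hj, h3, hex⟩).2.2.1
  · -- two equation vertices
    show (¬ ((e = e' ∧ J = (fun s => S (c e s)) ∧ J' = (fun s => S (c e s)) ∧ α ≠ α' ∧
        pa α = false ∧ pa α' = false) ↔
      (e = e' ∧ J = (fun s => S (c e s)) ∧ J' = (fun s => S (c e s)) ∧
        (fun s => xor (α s) (x (c e s, J s))) ≠ (fun s => xor (α' s) (x (c e' s, J' s))) ∧
        pa (fun s => xor (α s) (x (c e s, J s))) = rhs e ∧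
        pa (fun s => xor (α' s) (x (c e' s, J' s))) = rhs e))) ↔
      ∃ e1, (e = e1 ∧ e' = e1 ∧ J = (fun s => S (c e s)) ∧ J' = (fun s => S (c e s)) ∧ α ≠ α' ∧
        pa α = pa α') ∧ ¬ par (c e1) (res S x) = rhs e1
    by_cases he : e = e'
    swap
    · constructor
      · intro h
        exact absurd ⟨fun h' => absurd h'.1 he, fun h' => absurd h'.1 he⟩ h
      · rintro ⟨e1, ⟨h1, h2, _⟩, _⟩
        exact absurd (h1.trans h2.symm) he
    subst he
    by_cases hJ : J = fun s => S (c e s)
    swap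
    · constructor
      · intro h
        exact absurd ⟨fun h' => absurd h'.2.1 hJ, fun h' => absurd h'.2.1 hJ⟩ h
      · rintro ⟨e1, ⟨_, _, h, _⟩, _⟩
        exact absurd h hJ
    by_cases hJ' : J' = fun s => S (c e s)
    swap
    · constructor
      · intro h
        exact absurd ⟨fun h' => absurd h'.2.2.1 hJ', fun h' => absurd h'.2.2.1 hJ'⟩ h
      · rintro ⟨e1, ⟨_, _, _, h, _⟩, _⟩
        exact absurd h hJ'
    have hne : ((fun s => xor (α s) (x (c e s, J s))) ≠ (fun s => xor (α' s) (x (c e s, J' s)))) ↔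
        α ≠ α' := by
      rw [hJ, hJ', not_iff_not]
      constructor
      · intro h
        funext s
        have h2 := congrFun h s
        revert h2
        cases α s <;> cases α' s <;> cases x (c e s, S (c e s)) <;> simp
      · rintro rfl; rfl
    have hp : ∀ α : Fin 3 → Bool, pa (fun s => xor (α s) (x (c e s, S (c e s)))) = xor (pa α)
        (par (c e) (res S x)) := by
      intro α
      rw [← hx e, ← pa_xor]
    rw [hne, hJ, hJ', hp, hp]
    by_cases hαα : α ≠ α'
    swap
    · constructor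
      · intro h
        exact absurd ⟨fun h' => absurd h'.2.2.2.1 hαα, fun h' => absurd h'.2.2.2.1 hαα⟩ h
      · rintro ⟨e1, ⟨_, _, _, _, h, _⟩, _⟩
        exact absurd h hαα
    simp only [true_and]
    have key : (¬ ((pa α = false ∧ pa α' = false) ↔
        (xor (pa α) (par (c e) (res S x)) = rhs e ∧ xor (pa α') (par (c e) (res S x)) = rhs e))) ↔
          (pa α = pa α' ∧ ¬ par (c e) (res S x) = rhs e) := by
      generalize par (c e) (res S x) = y0
      generalize pa α = p; generalize pa α' = p'; generalize rhs e = r0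
      cases p <;> cases p' <;> cases y0 <;> cases r0 <;> decide
    constructor
    · intro h
      have h2 : ¬ ((pa α = false ∧ pa α' = false) ↔
        (xor (pa α) (par (c e) (res S x)) = rhs e ∧
          xor (pa α') (par (c e) (res S x)) = rhs e)) := by
        intro h3
        apply h
        exact and_congr Iff.rfl h3
      rw [key] at h2
      exact ⟨e, ⟨rfl, rfl, hαα, h2.1⟩, h2.2⟩
    · rintro ⟨e1, ⟨h1, _, _, h4⟩, h5⟩ h6
      subst h1
      have h2 : ¬ ((pa α = false ∧ pa α' = false) ↔
        (xor (pa α) (par (c e) (res S x)) = rhs e ∧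
          xor (pa α') (par (c e) (res S x)) = rhs e)) := key.2 ⟨h4, h5⟩
      apply h2
      constructor
      · intro h7
        exact (h6.1 ⟨hαα, h7⟩).2
      · intro h7
        exact (h6.2 ⟨hαα, h7⟩).2

end gadget

end Pool.Agent.TH661.LRS
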