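import Mathlib
import Pool.Agent.TH661.LRS.GI

/-!
The graphs of unsatisfiable systems are not isomorphic.
-/

namespace Pool.Agent.TH661.LRS

open Finset

/-- Adjacent vertices without a common neighbour. -/
def NT {W : Type*} (Γ : SimpleGraph W) (u v : W) : Prop :=
  Γ.Adj u v ∧ ∀ w, ¬ (Γ.Adj u w ∧ Γ.Adj v w)

theorem NT.iso {W W' : Type*} {Γ : SimpleGraph W} {Γ' : SimpleGraph W'} (φ : Γ ≃g Γ') {u v : W}
    (h : NT Γ u v) : NT Γ' (φ u) (φ v) := by
  refine ⟨φ.map_adj_iff.2 h.1, fun w hw => ?_⟩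
  apply h.2 (φ.symm w)
  rw [← φ.map_adj_iff, ← φ.map_adj_iff, φ.apply_symm_apply]
  exact hw

theorem NT.map {V W : Type*} {Γ : SimpleGraph V} (ι : V ↪ W) {a b : V} (h : NT Γ a b) :
    NT (Γ.map ι) (ι a) (ι b) := by
  refine ⟨(SimpleGraph.map_adj_apply).2 h.1, ?_⟩
  rintro w ⟨h1, h2⟩
  rw [SimpleGraph.map_adj] at h1 h2
  obtain ⟨a', b', h3, h4, h5⟩ := h1
  obtain ⟨a'', b'', h6, h7, h8⟩ := h2
  have e1 := ι.injective h4
  have e2 := ι.injective h7
  have e3 := ι.injective (h5.trans h8.symm)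
  subst e1; subst e2; subst e3
  exact h.2 _ ⟨h3, h6⟩

theorem NT.unmap {V W : Type*} {Γ : SimpleGraph V} (ι : V ↪ W) {u v : W}
    (h : NT (Γ.map ι) u v) : ∃ a b, NT Γ a b ∧ ι a = u ∧ ι b = v := by
  have h1 := h.1
  rw [SimpleGraph.map_adj] at h1
  obtain ⟨a, b, h3, rfl, rfl⟩ := h1
  refine ⟨a, b, ⟨h3, fun w hw => ?_⟩, rfl, rfl⟩
  exact h.2 (ι w) ⟨(SimpleGraph.map_adj_apply).2 hw.1, (SimpleGraph.map_adj_apply).2 hw.2⟩

theorem pa_perm : ∀ (ρ : Fin 3 → Fin 3) (α : Fin 3 → Bool), Function.Injective ρ →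
    pa (fun s => α (ρ s)) = pa α := by
  unfold pa Function.Injective
  decide

theorem third : ∀ (α α' : Fin 3 → Bool), pa α = pa α' → ∃ α'' : Fin 3 → Bool, α ≠ α'' ∧ α' ≠ α'' ∧
    pa α'' = pa α := by
  unfold pa
  decide

theorem partner : ∀ (α : Fin 3 → Bool) (s : Fin 3), ∃ α' : Fin 3 → Bool, α ≠ α' ∧ α' s = α s ∧
    pa α' = pa α := by
  unfold pa
  decide

variable {m b N : ℕ} {c : Fin N → Fin 3 → Fin m} {S : Fin m → Fin b} {rhs : Fin N → Bool}

theorem nt_fibre (hc : ∀ e, Function.Injective (c e)) (i : Fin m) (β : Bool) :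
    NT (Gr c S rhs) (Sum.inl (i, S i, β)) (Sum.inl (i, S i, !β)) := by
  refine ⟨⟨rfl, rfl, rfl, by cases β <;> decide⟩, ?_⟩
  rintro (⟨i', j', β'⟩ | ⟨e, J, α⟩) ⟨h1, h2⟩
  · have h3 : β ≠ β' := h1.2.2.2
    have h4 : (!β) ≠ β' := h2.2.2.2
    revert h3 h4
    cases β <;> cases β' <;> decide
  · obtain ⟨_, _, _, s, hs, hs'⟩ := h1
    obtain ⟨_, _, _, s2, hs2, hs2'⟩ := h2
    have : s = s2 := hc e (hs.trans hs2.symm)
    subst this
    rw [hs'] at hs2'
    revert hs2'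
    cases β <;> decide

theorem nt_cases {u v : GV m b N} (h : NT (Gr c S rhs) u v) :
    ∃ i β, u = Sum.inl (i, S i, β) ∧ v = Sum.inl (i, S i, !β) := by
  rcases u with ⟨i, j, β⟩ | ⟨e, J, α⟩ <;> rcases v with ⟨i', j', β'⟩ | ⟨e', J', α'⟩
  · obtain ⟨rfl, rfl, rfl, h4⟩ := h.1
    refine ⟨i, β, rfl, ?_⟩
    have : β' = !β := by
      revert h4
      cases β <;> cases β' <;> decide
    rw [this]
  · exfalso
    obtain ⟨h1, h2, h3, s, h4, h5⟩ := h.1
    obtain ⟨α2, h6, h7, h8⟩ := partner α' s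
    refine h.2 (Sum.inr (e', J', α2)) ⟨⟨h1, h2, h8.trans h3, s, h4, h7.trans h5⟩, ?_⟩
    exact ⟨rfl, h1, h1, h6, h3, h8.trans h3⟩
  · exfalso
    obtain ⟨h1, h2, h3, s, h4, h5⟩ := h.1
    obtain ⟨α2, h6, h7, h8⟩ := partner α s
    refine h.2 (Sum.inr (e, J, α2)) ⟨?_, ⟨h1, h2, h8.trans h3, s, h4, h7.trans h5⟩⟩
    exact ⟨rfl, h1, h1, h6, h3, h8.trans h3⟩
  · exfalso
    obtain ⟨rfl, h2, h3, h4, h5, h6⟩ := h.1
    obtain ⟨α2, h7, h8, h9⟩ := third α α' (h5.trans h6.symm)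
    refine h.2 (Sum.inr (e, J, α2)) ⟨?_, ?_⟩
    · exact ⟨rfl, h2, h2, h7, h5, h9.trans h5⟩
    · exact ⟨rfl, h3, h2, h8, h6, h9.trans h5⟩

/-- An isomorphism gives a solution of the system. -/
theorem iso_solution {n : ℕ} (hc : ∀ e, Function.Injective (c e)) (ι : GV m b N ↪ Fin n)
    (h : Nonempty (((Gr c S (fun _ => false)).map ι) ≃g ((Gr c S rhs).map ι))) :
    ∃ z : Fin m → Bool, ∀ e, par (c e) z = rhs e := by
  obtain ⟨φ⟩ := h
  obtain ⟨ψ, hψ⟩ : ∃ ψ : ((Gr c S rhs).map ι) ≃g ((Gr c S (fun _ => false)).map ι), ψ = φ.symm :=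
    ⟨_, rfl⟩
  have h1 : ∀ i : Fin m, ∃ (i' : Fin m) (β : Bool),
      ψ (ι (Sum.inl (i, S i, false))) = ι (Sum.inl (i', S i', β)) ∧
      ψ (ι (Sum.inl (i, S i, true))) = ι (Sum.inl (i', S i', !β)) := by
    intro i
    have h2 := ((nt_fibre (S := S) (rhs := rhs) hc i false).map ι).iso ψ
    obtain ⟨a, a', h3, h4, h5⟩ := NT.unmap ι h2
    obtain ⟨i', β, rfl, rfl⟩ := nt_cases h3
    exact ⟨i', β, h4.symm, h5.symm⟩
  choose σ z hz1 hz2 using h1
  have hz : ∀ i β, ψ (ι (Sum.inl (i, S i, β))) = ι (Sum.inl (σ i, S (σ i), xor β (z i))) := by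
    intro i β
    cases β
    · rw [hz1, Bool.false_xor]
    · rw [hz2, Bool.true_xor]
  have hσ : Function.Injective σ := by
    intro i i' hii
    have h2 := hz i (z i)
    have h3 := hz i' (z i')
    rw [Bool.xor_self] at h2 h3
    rw [hii] at h2
    have h4 := ψ.injective (h2.trans h3.symm)
    have h5 := ι.injective h4
    exact congrArg Prod.fst (Sum.inl_injective h5)
  refine ⟨z, fun e => ?_⟩
  set α' : Fin 3 → Bool := fun s => if s = 0 then rhs e else false with hα'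
  have hpa : pa α' = rhs e := by
    show xor (α' 0) (xor (α' 1) (α' 2)) = rhs e
    simp [hα']
  set h0 := ι (Sum.inr (e, fun s => S (c e s), α')) with hh0
  have hadj : ∀ s', ((Gr c S rhs).map ι).Adj h0
      (ι (Sum.inl (c e s', S (c e s'), α' s'))) := by
    intro s'
    rw [hh0, SimpleGraph.map_adj_apply]
    exact ⟨rfl, rfl, hpa, s', rfl, rfl⟩
  have hadj2 : ∀ s', ((Gr c S (fun _ => false)).map ι).Adj (ψ h0)
      (ι (Sum.inl (σ (c e s'), S (σ (c e s')), xor (α' s') (z (c e s'))))) := by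
    intro s'
    rw [← hz, ψ.map_adj_iff]
    exact hadj s'
  obtain ⟨a, ha⟩ : ∃ a, ψ h0 = ι a := by
    have h2 := hadj2 0
    rw [SimpleGraph.map_adj] at h2
    obtain ⟨a, _, _, h3, _⟩ := h2
    exact ⟨a, h3.symm⟩
  simp only [ha, SimpleGraph.map_adj_apply] at hadj2
  rcases a with ⟨i, j, β⟩ | ⟨e1, J, α⟩
  · exfalso
    have hj : j = S i := (hadj2 0).2.1
    subst hj
    have h2 := ((nt_fibre (S := S) (rhs := fun _ => false) hc i β).map ι).iso ψ.symm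
    rw [← ha, ψ.symm_apply_apply] at h2
    obtain ⟨a, a', h3, h4, h5⟩ := NT.unmap ι h2
    obtain ⟨i', β', rfl, rfl⟩ := nt_cases h3
    have h6 := ι.injective h4
    exact absurd h6 (by simp)
  · have h2 : ∀ s', ∃ s, c e1 s = σ (c e s') ∧ α s = xor (α' s') (z (c e s')) := by
      intro s'
      obtain ⟨_, _, _, s, h3, h4⟩ := hadj2 s'
      exact ⟨s, h3, h4⟩
    have hpα : pa α = false := (hadj2 0).2.2.1
    choose ρ hρ1 hρ2 using h2
    have hρ : Function.Injective ρ := by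
      intro s s' hss
      have h3 := hρ1 s
      rw [hss, hρ1 s'] at h3
      exact hc e (hσ h3.symm)
    have h3 := pa_perm ρ α hρ
    have h4 : (fun s => α (ρ s)) = fun s => xor (α' s) (z (c e s)) := funext hρ2
    rw [h4, pa_xor, hpα, hpa] at h3
    have h5 : pa (fun s => z (c e s)) = par (c e) z := rfl
    rw [h5] at h3
    revert h3
    generalize par (c e) z = p
    generalize rhs e = q
    cases p <;> cases q <;> decide

end Pool.Agent.TH661.LRS
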