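import Mathlib
import Pool.Agent.TH661.LRS.GI2

/-!
The number of disagreements as a function of the selected bits.
-/

namespace Pool.Agent.TH661.LRS

open Finset

theorem card_lt_pairs (n : ℕ) :
    ((univ : Finset (Fin n × Fin n)).filter fun p => p.1 < p.2).card = n.choose 2 := by
  have h1 : ((univ : Finset (Fin n × Fin n)).filter fun p => p.1 < p.2).card
      = ((univ : Finset (Fin n × Fin n)).filter fun p => p.2 < p.1).card := by
    refine Finset.card_bij (fun p _ => (p.2, p.1)) ?_ ?_ ?_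
    · intro p hp
      rw [mem_filter] at hp ⊢
      exact ⟨mem_univ _, hp.2⟩
    · rintro ⟨a, b⟩ _ ⟨a', b'⟩ _ h
      simp only [Prod.mk.injEq] at h ⊢
      exact ⟨h.2, h.1⟩
    · rintro ⟨a, b⟩ hp
      rw [mem_filter] at hp
      exact ⟨(b, a), mem_filter.2 ⟨mem_univ _, hp.2⟩, rfl⟩
  have h2 : ((univ : Finset (Fin n × Fin n)).filter fun p => p.1 < p.2).card
      + ((univ : Finset (Fin n × Fin n)).filter fun p => p.2 < p.1).card = n * (n - 1) := by
    rw [← Finset.card_union_of_disjoint]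
    · have h3 : ((univ : Finset (Fin n × Fin n)).filter fun p => p.1 < p.2) ∪
          ((univ : Finset (Fin n × Fin n)).filter fun p => p.2 < p.1)
          = (univ : Finset (Fin n)).offDiag := by
        ext p
        simp only [mem_union, mem_filter, mem_univ, true_and, mem_offDiag]
        exact ⟨fun h => h.elim (fun h => h.ne) (fun h => h.ne'), fun h => lt_or_gt_of_ne h⟩
      rw [h3, Finset.offDiag_card, Finset.card_univ, Fintype.card_fin, Nat.mul_sub, mul_one]
    · rw [Finset.disjoint_left]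
      intro p hp hp'
      rw [mem_filter] at hp hp'
      exact lt_asymm hp.2 hp'.2
  rw [Nat.choose_two_right]
  omega

variable {n m b N : ℕ}

/-- Critical pairs in the big graph. -/
def critW (c : Fin N → Fin 3 → Fin m) (ι : GV m b N ↪ Fin n) (S : Fin m → Fin b) (e : Fin N)
    (u v : Fin n) : Prop := ∃ a a', crit c S e a a' ∧ ι a = u ∧ ι a' = v

/-- The permutation of the vertices. -/
noncomputable def bigP (c : Fin N → Fin 3 → Fin m) (ι : GV m b N ↪ Fin n)
    (x : Fin m × Fin b → Bool) : Equiv.Perm (Fin n) := (shiftP c x).viaFintypeEmbedding ι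

theorem bigP_apply (c : Fin N → Fin 3 → Fin m) (ι : GV m b N ↪ Fin n)
    (x : Fin m × Fin b → Bool) (a : GV m b N) : bigP c ι x (ι a) = ι (shift c x a) := by
  unfold bigP
  rw [Equiv.Perm.viaFintypeEmbedding_apply_image]
  rfl

theorem disagreeW_iff (c : Fin N → Fin 3 → Fin m) (ι : GV m b N ↪ Fin n) (S : Fin m → Fin b)
    (rhs : Fin N → Bool) (x : Fin m × Fin b → Bool) (u v : Fin n) :
    (¬ (((Gr c S (fun _ => false)).map ι).Adj u v ↔
      ((Gr c S rhs).map ι).Adj (bigP c ι x u) (bigP c ι x v))) ↔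
      ∃ e, critW c ι S e u v ∧ ¬ par (c e) (res S x) = rhs e := by
  by_cases hu : ∃ a, ι a = u
  · by_cases hv : ∃ a, ι a = v
    · obtain ⟨a, rfl⟩ := hu
      obtain ⟨a', rfl⟩ := hv
      rw [bigP_apply, bigP_apply, SimpleGraph.map_adj_apply, SimpleGraph.map_adj_apply,
        disagree_iff]
      refine exists_congr fun e => and_congr ?_ Iff.rfl
      constructor
      · intro h
        exact ⟨a, a', h, rfl, rfl⟩
      · rintro ⟨a1, a2, h, h1, h2⟩
        rw [ι.injective h1, ι.injective h2] at h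
        exact h
    · constructor
      · intro h
        exfalso
        apply h
        constructor
        · intro h1
          rw [SimpleGraph.map_adj] at h1
          obtain ⟨_, a', _, _, h2⟩ := h1
          exact absurd ⟨a', h2⟩ hv
        · intro h1
          rw [SimpleGraph.map_adj] at h1
          obtain ⟨_, a', _, _, h2⟩ := h1
          exfalso
          apply hv
          refine ⟨shift c x a', ?_⟩
          apply (bigP c ι x).injective
          rw [bigP_apply, shift_invol, h2]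
      · rintro ⟨e, ⟨_, a', _, _, h⟩, _⟩
        exact absurd ⟨a', h⟩ hv
  · constructor
    · intro h
      exfalso
      apply h
      constructor
      · intro h1
        rw [SimpleGraph.map_adj] at h1
        obtain ⟨a', _, _, h2, _⟩ := h1
        exact absurd ⟨a', h2⟩ hu
      · intro h1
        rw [SimpleGraph.map_adj] at h1
        obtain ⟨a', _, _, h2, _⟩ := h1
        exfalso
        apply hu
        refine ⟨shift c x a', ?_⟩
        apply (bigP c ι x).injective
        rw [bigP_apply, shift_invol, h2]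
    · rintro ⟨e, ⟨a', _, _, h, _⟩, _⟩
      exact absurd ⟨a', h⟩ hu

open Classical in
/-- The number of disagreements minus `ε`. -/
noncomputable def gfun (c : Fin N → Fin 3 → Fin m) (ι : GV m b N ↪ Fin n) (rhs : Fin N → Bool)
    (ε : ℝ) (S : Fin m → Fin b) (y : Fin m → Bool) : ℝ :=
  (∑ p ∈ (univ : Finset (Fin n × Fin n)).filter (fun p => p.1 < p.2),
    if ∃ e, critW c ι S e p.1 p.2 ∧ ¬ par (c e) y = rhs e then 1 else 0) - ε

theorem gfun_eq (c : Fin N → Fin 3 → Fin m) (ι : GV m b N ↪ Fin n) (rhs : Fin N → Bool)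
    (ε : ℝ) (S : Fin m → Fin b) (x : Fin m × Fin b → Bool) :
    (n.choose 2 - ε : ℝ) - agree ((Gr c S (fun _ => false)).map ι) ((Gr c S rhs).map ι)
      (bigP c ι x) = gfun c ι rhs ε S (res S x) := by
  classical
  unfold gfun agree
  have h1 : ∀ p : Fin n × Fin n, (if ∃ e, critW c ι S e p.1 p.2 ∧ ¬ par (c e) (res S x) = rhs e
      then (1 : ℝ) else 0) = 1 - if (((Gr c S (fun _ => false)).map ι).Adj p.1 p.2 ↔
      ((Gr c S rhs).map ι).Adj (bigP c ι x p.1) (bigP c ι x p.2)) then (1 : ℝ) else 0 := by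
    intro p
    by_cases h : (((Gr c S (fun _ => false)).map ι).Adj p.1 p.2 ↔
      ((Gr c S rhs).map ι).Adj (bigP c ι x p.1) (bigP c ι x p.2))
    · rw [if_pos h, if_neg, sub_self]
      rw [← disagreeW_iff, not_not]
      exact h
    · rw [if_neg h, if_pos, sub_zero]
      rw [← disagreeW_iff]
      exact h
  simp only [h1]
  rw [Finset.sum_sub_distrib, Finset.sum_const, card_lt_pairs, nsmul_eq_mul, mul_one,
    Finset.sum_boole, Finset.filter_filter, sub_right_comm]
  congr!

theorem crit_unique {c : Fin N → Fin 3 → Fin m} {S : Fin m → Fin b} {e e' : Fin N}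
    {a a' : GV m b N} (h : crit c S e a a') (h' : crit c S e' a a') : e = e' := by
  rcases a with ⟨i, j, β⟩ | ⟨e1, J, α⟩ <;> rcases a' with ⟨i', j', β'⟩ | ⟨e2, J', α'⟩
  · exact absurd h id
  · exact h.1.symm.trans h'.1
  · exact h.1.symm.trans h'.1
  · exact h.1.symm.trans h'.1

theorem gfun_exp {c : Fin N → Fin 3 → Fin m} {ι : GV m b N ↪ Fin n} {rhs : Fin N → Bool}
    (ε : ℝ) (S : Fin m → Fin b) (D : (Fin m → Bool) → ℝ) (hD1 : ∑ y, D y = 2 ^ m)
    (hD2 : ∀ e, ∑ y, D y * (if par (c e) y = rhs e then 0 else 1) = 0) :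
    ∑ y, D y * gfun c ι rhs ε S y = -(ε * 2 ^ m) := by
  classical
  unfold gfun
  simp only [mul_sub, Finset.sum_sub_distrib, ← Finset.sum_mul, hD1, Finset.mul_sum]
  rw [Finset.sum_comm]
  have h1 : ∀ p ∈ (univ : Finset (Fin n × Fin n)).filter (fun p => p.1 < p.2),
      ∑ y, D y * (if ∃ e, critW c ι S e p.1 p.2 ∧ ¬ par (c e) y = rhs e then (1 : ℝ) else 0)
        = 0 := by
    intro p _
    by_cases hp : ∃ e, critW c ι S e p.1 p.2
    · obtain ⟨e0, he0⟩ := hp
      refine Eq.trans ?_ (hD2 e0)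
      refine Finset.sum_congr rfl fun y _ => ?_
      congr 1
      by_cases hy : par (c e0) y = rhs e0
      · rw [if_pos hy, if_neg]
        rintro ⟨e, he, hye⟩
        obtain ⟨a, a', h1, h2, h3⟩ := he0
        obtain ⟨a1, a1', h1', h2', h3'⟩ := he
        rw [ι.injective (h2'.trans h2.symm), ι.injective (h3'.trans h3.symm)] at h1'
        have := crit_unique h1 h1'
        subst this
        exact hye hy
      · rw [if_neg hy, if_pos]
        exact ⟨e0, he0, hy⟩
    · refine Finset.sum_eq_zero fun y _ => ?_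
      rw [if_neg, mul_zero]
      rintro ⟨e, he, _⟩
      exact hp ⟨e, he⟩
  rw [Finset.sum_eq_zero h1]
  ring

theorem gfun_le (c : Fin N → Fin 3 → Fin m) (ι : GV m b N ↪ Fin n) (rhs : Fin N → Bool)
    {ε : ℝ} (hε : 0 ≤ ε) (S : Fin m → Fin b) (y : Fin m → Bool) :
    gfun c ι rhs ε S y ≤ 176 * N := by
  classical
  set f : Fin N × (Fin 3 → Bool) × (Fin 3 ⊕ (Fin 3 → Bool)) × Bool → Fin n × Fin n :=
    fun q => match q with
      | (e, α, Sum.inl s, true) => (ι (Sum.inl (c e s, S (c e s), α s)),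
          ι (Sum.inr (e, fun s => S (c e s), α)))
      | (e, α, Sum.inl s, false) => (ι (Sum.inr (e, fun s => S (c e s), α)),
          ι (Sum.inl (c e s, S (c e s), α s)))
      | (e, α, Sum.inr α', _) => (ι (Sum.inr (e, fun s => S (c e s), α)),
          ι (Sum.inr (e, fun s => S (c e s), α'))) with hf
  have h1 : ∀ u v e, critW c ι S e u v → ∃ q, f q = (u, v) := by
    rintro u v e ⟨a, a', h, rfl, rfl⟩
    rcases a with ⟨i, j, β⟩ | ⟨e1, J, α⟩ <;> rcases a' with ⟨i', j', β'⟩ | ⟨e2, J', α'⟩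
    · exact absurd h id
    · obtain ⟨rfl, rfl, rfl, s, rfl, rfl⟩ := h
      exact ⟨(e2, α', Sum.inl s, true), rfl⟩
    · obtain ⟨rfl, rfl, rfl, s, rfl, rfl⟩ := h
      exact ⟨(e1, α, Sum.inl s, false), rfl⟩
    · obtain ⟨rfl, rfl, rfl, rfl, _, _⟩ := h
      exact ⟨(e2, α, Sum.inr α', true), rfl⟩
  unfold gfun
  rw [Finset.sum_boole]
  have h2 : ((((univ : Finset (Fin n × Fin n)).filter (fun p => p.1 < p.2)).filter
      fun p => ∃ e, critW c ι S e p.1 p.2 ∧ ¬ par (c e) y = rhs e).card : ℝ) ≤ 176 * N := by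
    have h3 : (((univ : Finset (Fin n × Fin n)).filter (fun p => p.1 < p.2)).filter
        fun p => ∃ e, critW c ι S e p.1 p.2 ∧ ¬ par (c e) y = rhs e) ⊆ univ.image f := by
      intro p hp
      rw [mem_filter] at hp
      obtain ⟨_, e, he, _⟩ := hp
      obtain ⟨q, hq⟩ := h1 _ _ e he
      rw [mem_image]
      exact ⟨q, mem_univ _, hq⟩
    have h4 := (Finset.card_le_card h3).trans Finset.card_image_le
    have h5 : (univ : Finset (Fin N × (Fin 3 → Bool) × (Fin 3 ⊕ (Fin 3 → Bool)) × Bool)).card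
        = 176 * N := by
      rw [card_univ]
      simp only [Fintype.card_prod, Fintype.card_fin, Fintype.card_fun, Fintype.card_bool,
        Fintype.card_sum]
      ring
    rw [h5] at h4
    exact_mod_cast h4
  linarith

theorem small_Gr (c : Fin N → Fin 3 → Fin m) (ι : GV m b N ↪ Fin n) (rhs : Fin N → Bool)
    (S : Fin m → Fin b) {s : ℕ} (hs : 2 * m + 8 * N ≤ s) : Small s ((Gr c S rhs).map ι) := by
  classical
  set f : (Fin m × Bool) ⊕ (Fin N × (Fin 3 → Bool)) → Fin n := fun q => match q with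
    | Sum.inl (i, β) => ι (Sum.inl (i, S i, β))
    | Sum.inr (e, α) => ι (Sum.inr (e, fun s => S (c e s), α)) with hf
  have h1 : ((Gr c S rhs).map ι).support ⊆ ((univ.image f : Finset (Fin n)) : Set (Fin n)) := by
    intro u hu
    rw [SimpleGraph.mem_support] at hu
    obtain ⟨v, hv⟩ := hu
    rw [SimpleGraph.map_adj] at hv
    obtain ⟨a, a', h, rfl, rfl⟩ := hv
    rw [mem_coe, mem_image]
    rcases a with ⟨i, j, β⟩ | ⟨e1, J, α⟩ <;> rcases a' with ⟨i', j', β'⟩ | ⟨e2, J', α'⟩
    · obtain ⟨rfl, rfl, rfl, _⟩ := h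
      exact ⟨Sum.inl (i, β), mem_univ _, rfl⟩
    · obtain ⟨_, rfl, _⟩ := h
      exact ⟨Sum.inl (i, β), mem_univ _, rfl⟩
    · obtain ⟨rfl, _⟩ := h
      exact ⟨Sum.inr (e1, α), mem_univ _, rfl⟩
    · obtain ⟨_, rfl, _⟩ := h
      exact ⟨Sum.inr (e1, α), mem_univ _, rfl⟩
  unfold Small
  refine (Set.ncard_le_ncard h1 (Finset.finite_toSet _)).trans ?_
  rw [Set.ncard_coe_finset]
  refine Finset.card_image_le.trans ?_
  rw [card_univ]
  simp only [Fintype.card_sum, Fintype.card_prod, Fintype.card_fin, Fintype.card_fun,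
    Fintype.card_bool]
  omega

/-- The lower bound for graph isomorphism, with all parameters. -/
theorem iso_bound {n m b N k r s : ℕ} {ε : ℝ} (F : IsoSDP n k r s ε) (t l w E j : ℕ)
    (ht : 1 ≤ t) (hm : 1 ≤ m) (D : (Fin m → Bool) → ℝ) (hD1 : ∑ y, D y = 2 ^ m)
    (hD3 : ∀ g : (Fin m → Bool) → ℝ, Dg t g → 0 ≤ ∑ y, D y * g y ^ 2)
    (hD4 : ∀ y, |D y| ≤ 2 ^ m) (c : Fin N → Fin 3 → Fin m) (rhs : Fin N → Bool) (hN : 1 ≤ N)
    (hc : ∀ e, Function.Injective (c e)) (hun : ∀ y, ∃ e, ¬ par (c e) y = rhs e)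
    (hD2 : ∀ e, ∑ y, D y * (if par (c e) y = rhs e then 0 else 1) = 0)
    (ι : GV m b N ↪ Fin n) (hs : 2 * m + 8 * N ≤ s) (hε : 0 < ε) (hε1 : ε ≤ 1)
    (hGE : 176 * N ≤ 2 ^ E * ε)
    (hw : 2 * m + 2 * E + 19 ≤ w * t) (hj : m + 4 + E ≤ 2 * j)
    (hb : 2 ^ (l + w) * ((2 ^ j * (l * t + m + 7 + E)) * m) ≤ b) :
    2 ^ (l * t) < 2 ^ k * (r + 1) := by
  have hN1 : (1 : ℝ) ≤ N := by exact_mod_cast hN
  refine region_bound_exp (m := m) (b := b) t l w E j ht hm D hD3 hD4
    (gfun c ι rhs ε) (176 * N) ε hε hGE (by linarith)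
    (fun S y => gfun_le c ι rhs hε.le S y) (fun S => (gfun_exp ε S D hD1 hD2).le) hw hj hb
    F.A F.c (fun x => F.y (bigP c ι x)) (fun x => F.psd _) (fun x => F.eqn _)
    (fun S => F.w ((Gr c S (fun _ => false)).map ι) ((Gr c S rhs).map ι))
    (fun S => F.w0 ((Gr c S (fun _ => false)).map ι) ((Gr c S rhs).map ι))
    (fun _ => n.choose 2 - ε) ?_ ?_
  · intro S x
    have h1 := F.value _ _ (small_Gr c ι (fun _ => false) S hs) (small_Gr c ι rhs S hs)
      (bigP c ι x)
    rw [h1]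
    exact gfun_eq c ι rhs ε S x
  · intro S β f Z hZ hA
    refine F.bound _ _ (small_Gr c ι (fun _ => false) S hs) (small_Gr c ι rhs S hs) ?_ β f Z hZ hA
    intro hiso
    obtain ⟨z, hz⟩ := iso_solution hc ι hiso
    obtain ⟨e, he⟩ := hun z
    exact he (hz e)

end Pool.Agent.TH661.LRS
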