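import Mathlib
import Pool.Agent.TH661.LRS.GI3

/-!
The lower bound for graph isomorphism in terms of `n` and `s`.
-/

namespace Pool.Agent.TH661.LRS

open Finset

/-- A smaller gap is a weaker requirement. -/
def IsoSDP.weaken {n k r s : ℕ} {ε ε' : ℝ} (F : IsoSDP n k r s ε) (h : ε' ≤ ε) :
    IsoSDP n k r s ε' where
  d := F.d
  q := F.q
  A := F.A
  c := F.c
  y := F.y
  w := F.w
  w0 := F.w0
  psd := F.psd
  eqn := F.eqn
  value := F.value
  bound := fun G H hG hH hn β f Z hZ hA => (F.bound G H hG hH hn β f Z hZ hA).trans (by linarith)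

/-- The choice of the parameters. -/
theorem params {M K n0 s Λ : ℕ} (hM : 1 ≤ M) (hK : 1 ≤ K)
    (hs : 400 * ((2 + 8 * M) * K * (n0 + 1)) ≤ s)
    (hΛ : 400 * ((2 + 8 * M) * K * (n0 + 1)) * s ≤ Λ) :
    ∃ m t q : ℕ, n0 ≤ m ∧ 1 ≤ m ∧ 240 ≤ t ∧ t ≤ m ∧ K * t ≤ m ∧ (2 + 8 * M) * m ≤ s ∧ s ≤ q ∧
      19 ≤ q ∧ 100 * q ≤ Λ ∧ Λ + 1 ≤ 200 * q ∧ Λ ≤ 100 * q + 99 ∧
      s ≤ 2 * ((2 + 8 * M) * K) * t := by
  obtain ⟨a, ha⟩ : ∃ a, a = 2 + 8 * M := ⟨_, rfl⟩
  rw [← ha] at hs hΛ ⊢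
  have ha1 : 10 ≤ a := by omega
  have hP : 1 ≤ a * K * (n0 + 1) := Nat.succ_le_of_lt (by positivity)
  have haK : a * K ≤ a * K * (n0 + 1) := Nat.le_mul_of_pos_right _ (by omega)
  have hs400 : 400 * (a * K) ≤ s := (Nat.mul_le_mul_left _ haK).trans hs
  have haKpos : 10 ≤ a * K := by nlinarith
  have hsbig : 4000 ≤ s := by omega
  refine ⟨s / a, s / a / K, Λ / 100, ?_, ?_, ?_, Nat.div_le_self _ _, Nat.mul_div_le _ _,
    Nat.mul_div_le _ _, ?_, ?_, Nat.mul_div_le _ _, ?_, ?_, ?_⟩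
  · rw [Nat.le_div_iff_mul_le (by omega)]
    have h1 : n0 * a ≤ a * K * (n0 + 1) := by nlinarith
    omega
  · rw [Nat.le_div_iff_mul_le (by omega)]
    have : a ≤ a * K := Nat.le_mul_of_pos_right _ hK
    omega
  · rw [Nat.div_div_eq_div_mul, Nat.le_div_iff_mul_le (by positivity)]
    omega
  · have h1 : 400 * s ≤ Λ := by
      refine le_trans ?_ hΛ
      exact Nat.mul_le_mul_right _ (by omega)
    rw [Nat.le_div_iff_mul_le (by norm_num)]
    omega
  · have h1 : 400 * s ≤ Λ := by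
      refine le_trans ?_ hΛ
      exact Nat.mul_le_mul_right _ (by omega)
    rw [Nat.le_div_iff_mul_le (by norm_num)]
    omega
  · have h1 : 400 * s ≤ Λ := by
      refine le_trans ?_ hΛ
      exact Nat.mul_le_mul_right _ (by omega)
    omega
  · omega
  · rw [Nat.div_div_eq_div_mul]
    have h1 : s < a * K * (s / (a * K) + 1) := by
      have := Nat.lt_mul_div_succ s (show 0 < a * K by omega)
      exact this
    have h2 : 400 ≤ s / (a * K) := by
      rw [Nat.le_div_iff_mul_le (by omega)]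
      exact hs400
    have h3 : a * K * (s / (a * K) + 1) ≤ 2 * (a * K) * (s / (a * K)) := by
      nlinarith
    omega

theorem pow_num (q m t E : ℕ) (hq : 19 ≤ q) (hm : m ≤ q) (ht : t ≤ q) (hE : E = 51 * q + 58) :
    2 ^ (q + q) * ((2 ^ (26 * q + 31) * (q * t + m + 7 + E)) * m) ≤ 2 ^ (33 * q) := by
  have hq2 : q ≤ 2 ^ q := (Nat.lt_two_pow_self).le
  have h1 : q * t + m + 7 + E ≤ 2 ^ 7 * (2 ^ q * 2 ^ q) := by
    have h2 : q * t ≤ q * q := Nat.mul_le_mul_left _ ht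
    have h3 : q * t + m + 7 + E ≤ 2 ^ 7 * (q * q) := by
      rw [hE]
      nlinarith
    exact h3.trans (Nat.mul_le_mul_left _ (Nat.mul_le_mul hq2 hq2))
  calc 2 ^ (q + q) * ((2 ^ (26 * q + 31) * (q * t + m + 7 + E)) * m)
      ≤ 2 ^ (q + q) * ((2 ^ (26 * q + 31) * (2 ^ 7 * (2 ^ q * 2 ^ q))) * 2 ^ q) := by
        gcongr
        exact hm.trans hq2
    _ = 2 ^ (31 * q + 38) := by
        rw [← pow_add, ← pow_add, ← pow_add, ← pow_add, ← pow_add]
        congr 1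
        ring
    _ ≤ 2 ^ (33 * q) := Nat.pow_le_pow_right (by norm_num) (by omega)

/-- The lower bound for graph isomorphism. -/
theorem iso_lower : ∃ C : ℕ, 1 ≤ C ∧ ∀ (n k r s : ℕ) (ε : ℝ), C ≤ s → C * s ≤ Nat.log 2 n →
    (n : ℝ) ^ (-(1 / 2) : ℝ) ≤ ε → Nonempty (IsoSDP n k r s ε) →
    (n : ℝ) ^ ((s : ℝ) / C) ≤ 2 ^ k * (r + 1) := by
  obtain ⟨M, K, n0, hM, hK, hsys⟩ := exists_system (1 / 4) (by norm_num)
  set C : ℕ := 400 * ((2 + 8 * M) * K * (n0 + 1)) with hC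
  have hC1 : 1 ≤ C := Nat.succ_le_of_lt (by positivity)
  refine ⟨C, hC1, ?_⟩
  rintro n k r s ε hs hΛ hε ⟨F⟩
  obtain ⟨m, t, q, hm0, hm1, ht, htm, hKt, hms, hsq, hq19, hq1, hq2, hq3, hst⟩ :=
    params hM hK hs hΛ
  set Λ := Nat.log 2 n with hΛdef
  have hn0 : n ≠ 0 := by
    rintro rfl
    simp at hΛdef
    omega
  have hnlow : 2 ^ Λ ≤ n := Nat.pow_log_le_self 2 hn0
  have hnup : n < 2 ^ (Λ + 1) := Nat.lt_pow_succ_log_self (by norm_num) n
  have hnR : (0 : ℝ) < n := by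
    have : 0 < n := Nat.pos_of_ne_zero hn0
    exact_mod_cast this
  have hn1R : (1 : ℝ) ≤ n := by
    have : 1 ≤ n := Nat.one_le_iff_ne_zero.2 hn0
    exact_mod_cast this
  obtain ⟨N, c, rhs, D, hNM, hN, hc, hun, hD4, hD1, hD3, hD2⟩ := hsys m hm0
  have hN1 : 1 ≤ N := by omega
  have hNs : 2 * m + 8 * N ≤ s := by
    refine le_trans ?_ hms
    have : (2 + 8 * M) * m = 2 * m + 8 * (M * m) := by ring
    omega
  have hNq : N ≤ q := by omega
  have hmq : m ≤ q := by omega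
  have htq : t ≤ q := by omega
  have hq2q : q ≤ 2 ^ q := (Nat.lt_two_pow_self).le
  set b : ℕ := 2 ^ (33 * q) with hb
  have hb1 : 1 ≤ b := Nat.one_le_two_pow
  -- the embedding
  have hcard : Fintype.card (GV m b N) ≤ Fintype.card (Fin n) := by
    rw [Fintype.card_fin]
    simp only [GV, Fintype.card_sum, Fintype.card_prod, Fintype.card_fin, Fintype.card_fun,
      Fintype.card_bool]
    calc m * (b * 2) + N * (b ^ 3 * 2 ^ 3) ≤ (2 * m + 8 * N) * b ^ 3 := by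
          have : b ≤ b ^ 3 := Nat.le_self_pow (by norm_num) b
          nlinarith
      _ ≤ 2 ^ q * b ^ 3 := Nat.mul_le_mul_right _ (by omega)
      _ = 2 ^ (100 * q) := by
          rw [hb, ← pow_mul, ← pow_add]
          congr 1
          ring
      _ ≤ 2 ^ Λ := Nat.pow_le_pow_right (by norm_num) hq1
      _ ≤ n := hnlow
  obtain ⟨ι⟩ := Function.Embedding.nonempty_of_card_le hcard
  -- the gap
  have hε' : (n : ℝ) ^ (-(1 / 2) : ℝ) ≤ min ε 1 := by
    refine le_min hε ?_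
    exact Real.rpow_le_one_of_one_le_of_nonpos hn1R (by norm_num)
  have hε0 : 0 < min ε 1 := lt_of_lt_of_le (by positivity) hε'
  have hnhalf : (n : ℝ) ^ (1 / 2 : ℝ) ≤ 2 ^ (50 * q + 50) := by
    have h1 : (n : ℝ) ≤ 2 ^ (100 * q + 100) := by
      have h2 : n ≤ 2 ^ (100 * q + 100) :=
        hnup.le.trans (Nat.pow_le_pow_right (by norm_num) (by omega))
      exact_mod_cast h2
    calc (n : ℝ) ^ (1 / 2 : ℝ) ≤ ((2 : ℝ) ^ (100 * q + 100)) ^ (1 / 2 : ℝ) :=
          Real.rpow_le_rpow hnR.le h1 (by norm_num)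
      _ = 2 ^ (50 * q + 50) := by
          rw [← Real.rpow_natCast, ← Real.rpow_mul (by norm_num), ← Real.rpow_natCast]
          congr 1
          push_cast
          ring
  have hGE : (176 * N : ℝ) ≤ 2 ^ (51 * q + 58) * min ε 1 := by
    have h1 : (N : ℝ) ≤ 2 ^ q := by exact_mod_cast hNq.trans hq2q
    have h2 : (1 : ℝ) ≤ 2 ^ (50 * q + 50) * min ε 1 := by
      calc (1 : ℝ) = (n : ℝ) ^ (1 / 2 : ℝ) * (n : ℝ) ^ (-(1 / 2) : ℝ) := by
            rw [← Real.rpow_add hnR]; norm_num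
        _ ≤ 2 ^ (50 * q + 50) * min ε 1 := mul_le_mul hnhalf hε' (by positivity) (by positivity)
    calc (176 * N : ℝ) ≤ 2 ^ 8 * 2 ^ q := by
          have : (0 : ℝ) < 2 ^ q := by positivity
          nlinarith
      _ = (2 ^ 8 * 2 ^ q) * 1 := by ring
      _ ≤ (2 ^ 8 * 2 ^ q) * (2 ^ (50 * q + 50) * min ε 1) :=
          mul_le_mul_of_nonneg_left h2 (by positivity)
      _ = 2 ^ (51 * q + 58) * min ε 1 := by ring
  have hmain := iso_bound (F.weaken (min_le_left ε 1)) t q q (51 * q + 58) (26 * q + 31) (by omega)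
    hm1 D hD1 (hD3 t hKt) hD4 c rhs hN1 hc (fun y => by
      have h1 := hun y
      have h2 : (0 : ℝ) < ((univ.filter fun j => ¬ par (c j) y = rhs j).card : ℝ) := by
        refine lt_of_lt_of_le ?_ h1
        have : (0 : ℝ) < N := by exact_mod_cast hN1
        linarith
      have h3 : 0 < (univ.filter fun j => ¬ par (c j) y = rhs j).card := by exact_mod_cast h2
      obtain ⟨e, he⟩ := Finset.card_pos.1 h3
      exact ⟨e, (mem_filter.1 he).2⟩) hD2 ι hNs hε0 (min_le_right _ _) hGE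
    (by nlinarith) (by omega) (pow_num q m t _ hq19 hmq htq rfl)
  -- conclusion
  have hmainR : (2 : ℝ) ^ (q * t) < 2 ^ k * (r + 1) := by exact_mod_cast hmain
  refine le_trans ?_ hmainR.le
  have hCR : (0 : ℝ) < C := by exact_mod_cast hC1
  have h1 : (n : ℝ) ≤ (2 : ℝ) ^ ((200 * q : ℕ) : ℝ) := by
    rw [Real.rpow_natCast]
    have h2 : n ≤ 2 ^ (200 * q) := hnup.le.trans (Nat.pow_le_pow_right (by norm_num) hq2)
    exact_mod_cast h2
  calc (n : ℝ) ^ ((s : ℝ) / C) ≤ ((2 : ℝ) ^ ((200 * q : ℕ) : ℝ)) ^ ((s : ℝ) / C) :=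
        Real.rpow_le_rpow hnR.le h1 (by positivity)
    _ = (2 : ℝ) ^ (((200 * q : ℕ) : ℝ) * ((s : ℝ) / C)) := by rw [← Real.rpow_mul (by norm_num)]
    _ ≤ (2 : ℝ) ^ ((q * t : ℕ) : ℝ) := by
        refine Real.rpow_le_rpow_of_exponent_le (by norm_num) ?_
        rw [mul_div_assoc', div_le_iff₀ hCR]
        have h3 : 200 * q * s ≤ q * t * C := by
          calc 200 * q * s ≤ 200 * q * (2 * ((2 + 8 * M) * K) * t) := Nat.mul_le_mul_left _ hst
            _ = q * t * (400 * ((2 + 8 * M) * K * 1)) := by ring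
            _ ≤ q * t * C := by
                rw [hC]
                refine Nat.mul_le_mul_left _ (Nat.mul_le_mul_left _ (Nat.mul_le_mul_left _ ?_))
                omega
        exact_mod_cast h3
    _ = 2 ^ (q * t) := Real.rpow_natCast _ _

end Pool.Agent.TH661.LRS
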