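import Mathlib
import Pool.Agent.TH661.LRS.CL2
import Pool.Agent.TH661.LRS.GI4
import Pool.Agent.TH661.LRS.Up

/-!
The size of semidefinite programs for the clique problem.
-/

namespace Pool.Agent.TH661.LRS

open Finset Matrix

/-- The lower bound with all parameters. -/
theorem clique_bound {n m b k ℓ N q r : ℕ} {α ε : ℝ} (F : CliqueSDP n k q r α ε)
    (t l w E j : ℕ) (hb0 : 0 < b)
    (ht : 1 ≤ t) (hm : 1 ≤ m) (D : (Fin m → Bool) → ℝ) (hD1 : ∑ y, D y = 2 ^ m)
    (hD3 : ∀ g : (Fin m → Bool) → ℝ, Dg t g → 0 ≤ ∑ y, D y * g y ^ 2)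
    (hD4 : ∀ y, |D y| ≤ 2 ^ m) (c : Fin N → Fin 3 → Fin m) (rhs : Fin N → Bool)
    (hD2 : ∀ e, ∑ y, D y * (if par (c e) y = rhs e then 0 else 1) = 0)
    (σ : Fin k → Fin ℓ → Fin N) (hσ : ∀ (y : Fin m → Bool) (T : Finset (Fin k)),
      (∀ j ∈ T, holds c rhs (σ j) y) → (T.card : ℝ) ≤ α * k) (hαk : 1 ≤ α * k)
    (hℓ : 6 * ℓ ≤ t)
    (ι : CV b k ℓ ↪ Fin n) (hk : 1 ≤ k) (hε : 0 < ε) (hε1 : ε ≤ 1)
    (hGE : (k : ℝ) ^ 2 ≤ 2 ^ E * ε)
    (hw : 2 * m + 2 * E + 19 ≤ w * t) (hj : m + 4 + E ≤ 2 * j)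
    (hb : 2 ^ (l + w) * ((2 ^ j * (l * t + m + 7 + E)) * m) ≤ b) :
    2 ^ (l * t) < 2 ^ q * (r + 1) := by
  have hk1 : (1 : ℝ) ≤ (k : ℝ) ^ 2 := by
    have : (1 : ℝ) ≤ k := by exact_mod_cast hk
    nlinarith
  have hcard : ∀ S : Fin m → Fin b, (univ.map (selE ι c σ S)).card = k := by
    intro S
    rw [Finset.card_map, Finset.card_univ, Fintype.card_fin]
  refine region_bound_exp' (m := m) (b := b) t l w E j ht hm D hD3 hD4
    (fun _ y => gcl c σ rhs ε y) ((k : ℝ) ^ 2) ε hε hGE (by linarith)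
    (fun S y => gcl_le c σ rhs hε.le y)
    (fun S => (gcl_exp D hD1 hD3 c σ rhs hD2 hℓ ε).le) hw hj hb
    F.A F.c (fun S => F.y (univ.map (selE ι c σ S))) (fun S => F.psd _ (hcard S))
    (fun S => F.eqn _ (hcard S))
    (fun x => F.w ((GC c σ rhs x).map ι)) (fun x => F.w0 ((GC c σ rhs x).map ι))
    (fun _ => k.choose 2 - ε) ?_ ?_
  · intro S x
    have h1 := F.value ((GC c σ rhs x).map ι) _ (hcard S)
    rw [h1]
    exact gcl_eq ι c σ rhs ε S x
  · intro x β f Z hZ hA
    exact F.bound _ (GC_cliqueNum ι hb0 c σ rhs x (α * k) hαk hσ) β f Z hZ hA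

theorem sq_le_pow (u : ℕ) : u ^ 2 ≤ 2 ^ (u + 8) := by
  induction u with
  | zero => positivity
  | succ u ih =>
    have h1 : 2 ^ (u + 1 + 8) = 2 * 2 ^ (u + 8) := by ring
    rw [h1]
    have h2 : 2 * u + 1 ≤ 2 ^ (u + 8) := by
      have h3 : u + 8 < 2 ^ (u + 8) := Nat.lt_two_pow_self
      have h4 : u < 2 ^ u := Nat.lt_two_pow_self
      have h5 : 2 ^ (u + 8) = 256 * 2 ^ u := by ring
      omega
    nlinarith

/-- The lower bound for the clique problem. -/
theorem clique_lower (α : ℝ) (hα : 0 < α) : ∃ C : ℕ, 1 ≤ C ∧ ∀ (n k q r : ℕ) (ε : ℝ),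
    C ≤ k → C * k ≤ Nat.log 2 n → (n : ℝ) ^ (-(1 / C) : ℝ) ≤ ε →
    Nonempty (CliqueSDP n k q r α ε) → (n : ℝ) ^ ((k : ℝ) / C) ≤ 2 ^ q * (r + 1) := by
  classical
  obtain ⟨M, K, n0, hM, hK, hsys⟩ := exists_system (1 / 4) (by norm_num)
  obtain ⟨ℓ, hℓ⟩ := exists_nat_gt (8 / α)
  have hℓ0 : (0 : ℝ) < ℓ := lt_trans (by positivity) hℓ
  have hℓ1 : 1 ≤ ℓ := by
    have : 0 < ℓ := by exact_mod_cast hℓ0
    omega
  have hℓα : 8 ≤ ℓ * α := by
    rw [div_lt_iff₀ hα] at hℓ
    exact hℓ.le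
  set C : ℕ := 400 * ℓ * K * (n0 + 1) with hC
  have hC400 : 400 * ℓ * K ≤ C := Nat.le_mul_of_pos_right _ (by omega)
  have hCℓ : 400 * ℓ ≤ C := le_trans (Nat.le_mul_of_pos_right _ hK) hC400
  have hCK : 400 * K ≤ C := by
    refine le_trans ?_ hC400
    calc 400 * K = 400 * 1 * K := by ring
      _ ≤ 400 * ℓ * K := by gcongr
  have hCn0 : n0 ≤ C := by
    have h1 : 1 ≤ 400 * ℓ * K := Nat.succ_le_of_lt (by positivity)
    have h2 : n0 + 1 ≤ 400 * ℓ * K * (n0 + 1) := Nat.le_mul_of_pos_left _ (by omega)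
    omega
  have hC1 : 1 ≤ C := by omega
  refine ⟨C, hC1, ?_⟩
  rintro n k q r ε hk hΛ hε ⟨F⟩
  set Λ := Nat.log 2 n with hΛdef
  have hk400 : 400 ≤ k := by omega
  have hΛ1 : C ≤ Λ := le_trans (Nat.le_mul_of_pos_right _ (by omega)) hΛ
  have hn0 : n ≠ 0 := by
    rintro rfl
    simp at hΛdef
    omega
  have hnlow : 2 ^ Λ ≤ n := Nat.pow_log_le_self 2 hn0
  have hnup : n < 2 ^ (Λ + 1) := Nat.lt_pow_succ_log_self (by norm_num) n
  have hnR : (0 : ℝ) < n := by
    have : 0 < n := Nat.pos_of_ne_zero hn0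
    exact_mod_cast this
  have hn1R : (1 : ℝ) ≤ n := by
    have : 1 ≤ n := Nat.one_le_iff_ne_zero.2 hn0
    exact_mod_cast this
  obtain ⟨N, c, rhs, D, hNM, hN, hc, hun, hD4, hD1, hD3, hD2⟩ := hsys k (hCn0.trans hk)
  have hN1 : 1 ≤ N := by omega
  -- the parameters
  set t : ℕ := k / K with htdef
  set u : ℕ := Λ / (100 * ℓ) with hudef
  have hKt : K * t ≤ k := Nat.mul_div_le _ _
  have hℓK : 6 * ℓ ≤ t := by
    rw [htdef, Nat.le_div_iff_mul_le (by omega)]
    calc 6 * ℓ * K ≤ 400 * ℓ * K := by gcongr; norm_num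
      _ ≤ k := hC400.trans hk
  have ht240 : 240 ≤ t := by
    rw [htdef, Nat.le_div_iff_mul_le (by omega)]
    have : 240 * K ≤ 400 * K := Nat.mul_le_mul_right _ (by norm_num)
    omega
  have htk : t ≤ k := Nat.div_le_self _ _
  have hku : k ≤ u := by
    rw [hudef, Nat.le_div_iff_mul_le (by positivity)]
    refine le_trans ?_ hΛ
    rw [mul_comm k]
    exact Nat.mul_le_mul_right _ (by omega)
  have hu1 : 100 * ℓ * u ≤ Λ := Nat.mul_div_le _ _
  have hu2 : Λ < 100 * ℓ * (u + 1) := by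
    have := Nat.lt_mul_div_succ Λ (show 0 < 100 * ℓ by positivity)
    rw [hudef]
    exact this
  have hkt : k ≤ 2 * K * t := by
    have h1 : k < K * (t + 1) := by
      have := Nat.lt_mul_div_succ k (show 0 < K by omega)
      rw [htdef]
      exact this
    have h2 : K * (t + 1) ≤ 2 * K * t := by
      have : 1 ≤ t := by omega
      nlinarith
    omega
  have hu400 : 400 ≤ u := by omega
  set b : ℕ := 2 ^ (33 * u) with hb
  have hb1 : 1 ≤ b := Nat.one_le_two_pow
  have hcard : Fintype.card (CV b k ℓ) ≤ Fintype.card (Fin n) := by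
    rw [Fintype.card_fin]
    simp only [CV, Fintype.card_prod, Fintype.card_fin, Fintype.card_fun]
    calc k * ((b ^ 3) ^ ℓ) ≤ 2 ^ u * ((b ^ 3) ^ ℓ) := by
          refine Nat.mul_le_mul_right _ ?_
          exact hku.trans (Nat.lt_two_pow_self).le
      _ = 2 ^ (u + 99 * (ℓ * u)) := by
          rw [hb, ← pow_mul, ← pow_mul, ← pow_add]
          congr 1
          ring
      _ ≤ 2 ^ Λ := by
          refine Nat.pow_le_pow_right (by norm_num) ?_
          have h1 : u ≤ ℓ * u := Nat.le_mul_of_pos_left _ (by omega)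
          have h2 : 100 * ℓ * u = 100 * (ℓ * u) := by ring
          omega
      _ ≤ n := hnlow
  obtain ⟨ι⟩ := Function.Embedding.nonempty_of_card_le hcard
  -- the tuples
  set p : ℝ := (3 / 4) ^ ℓ with hp
  have hp0 : 0 < p := by positivity
  have hp1 : p ≤ 1 := pow_le_one₀ (by norm_num) (by norm_num)
  have hpα : p ^ α ≤ 1 / 8 := by
    rw [hp, ← Real.rpow_natCast, ← Real.rpow_mul (by norm_num)]
    calc (3 / 4 : ℝ) ^ ((ℓ : ℝ) * α) ≤ (3 / 4 : ℝ) ^ (8 : ℝ) :=
          Real.rpow_le_rpow_of_exponent_ge (by norm_num) (by norm_num) hℓα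
      _ ≤ 1 / 8 := by norm_num
  obtain ⟨σ, hσ⟩ := exists_sample (W := Fin ℓ → Fin N) (Y := Fin k → Bool) k (by omega)
    (by
      rw [Fintype.card_fun, Fintype.card_fin, Fintype.card_fin]
      positivity)
    (by simp)
    (fun y => Fintype.piFinset fun _ => univ.filter fun e => par (c e) y = rhs e) p α hp0 hp1 hpα
    (by
      intro y
      rw [Fintype.card_piFinset, Finset.prod_const, Finset.card_univ, Fintype.card_fin,
        Fintype.card_fun, Fintype.card_fin, Fintype.card_fin]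
      push_cast
      rw [hp, ← mul_pow]
      refine pow_le_pow_left₀ (by positivity) ?_ _
      have h1 := hun y
      have h2 := Finset.card_filter_add_card_filter_not (s := (univ : Finset (Fin N)))
        (fun e => par (c e) y = rhs e)
      rw [Finset.card_univ, Fintype.card_fin] at h2
      have h3 : ((univ.filter fun e => par (c e) y = rhs e).card : ℝ)
        + ((univ.filter fun e => ¬ par (c e) y = rhs e).card : ℝ) = N := by exact_mod_cast h2
      linarith)
  have hσ' : ∀ (y : Fin k → Bool) (T : Finset (Fin k)),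
      (∀ j ∈ T, holds c rhs (σ j) y) → (T.card : ℝ) ≤ α * k := by
    intro y T hT
    refine le_trans ?_ (hσ y)
    have : T ⊆ univ.filter fun j => σ j ∈ Fintype.piFinset fun _ =>
        univ.filter fun e => par (c e) y = rhs e := by
      intro j hj
      rw [Finset.mem_filter, Fintype.mem_piFinset]
      refine ⟨Finset.mem_univ _, fun s => ?_⟩
      rw [Finset.mem_filter]
      exact ⟨Finset.mem_univ _, hT j hj s⟩
    exact_mod_cast Finset.card_le_card this
  have hαk : 1 ≤ α * k := by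
    have h1 : (ℓ : ℝ) ≤ k := by
      have : ℓ ≤ k := by omega
      exact_mod_cast this
    have h2 := mul_le_mul_of_nonneg_left h1 hα.le
    linarith
  -- the gap
  have hCR : (0 : ℝ) < C := by exact_mod_cast hC1
  have hε' : (n : ℝ) ^ (-(1 / C) : ℝ) ≤ min ε 1 := by
    refine le_min hε ?_
    refine Real.rpow_le_one_of_one_le_of_nonpos hn1R ?_
    have : (0 : ℝ) < 1 / C := by positivity
    linarith
  have hε0 : 0 < min ε 1 := lt_of_lt_of_le (by positivity) hε'
  have hnC : (n : ℝ) ^ (1 / C : ℝ) ≤ 2 ^ (50 * u + 50) := by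
    have h1 : (n : ℝ) ≤ 2 ^ (100 * ℓ * (u + 1)) := by
      have h2 : n ≤ 2 ^ (100 * ℓ * (u + 1)) :=
        hnup.le.trans (Nat.pow_le_pow_right (by norm_num) hu2)
      exact_mod_cast h2
    calc (n : ℝ) ^ (1 / C : ℝ) ≤ ((2 : ℝ) ^ (100 * ℓ * (u + 1))) ^ (1 / C : ℝ) :=
          Real.rpow_le_rpow hnR.le h1 (by positivity)
      _ = (2 : ℝ) ^ (((100 * ℓ * (u + 1) : ℕ) : ℝ) * (1 / C)) := by
          rw [← Real.rpow_natCast, ← Real.rpow_mul (by norm_num)]
      _ ≤ (2 : ℝ) ^ ((50 * u + 50 : ℕ) : ℝ) := by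
          refine Real.rpow_le_rpow_of_exponent_le (by norm_num) ?_
          rw [mul_one_div, div_le_iff₀ hCR]
          have h3 : 100 * ℓ * (u + 1) ≤ (50 * u + 50) * C := by
            calc 100 * ℓ * (u + 1) ≤ (50 * u + 50) * (400 * ℓ) := by nlinarith
              _ ≤ (50 * u + 50) * C := Nat.mul_le_mul_left _ hCℓ
          exact_mod_cast h3
      _ = 2 ^ (50 * u + 50) := Real.rpow_natCast _ _
  have hGE : (k : ℝ) ^ 2 ≤ 2 ^ (51 * u + 58) * min ε 1 := by
    have h1 : (k : ℝ) ^ 2 ≤ 2 ^ (u + 8) := by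
      have h3 : k ^ 2 ≤ 2 ^ (u + 8) := (Nat.pow_le_pow_left hku 2).trans (sq_le_pow u)
      exact_mod_cast h3
    have h2 : (1 : ℝ) ≤ 2 ^ (50 * u + 50) * min ε 1 := by
      calc (1 : ℝ) = (n : ℝ) ^ (1 / C : ℝ) * (n : ℝ) ^ (-(1 / C) : ℝ) := by
            rw [← Real.rpow_add hnR, add_neg_cancel, Real.rpow_zero]
        _ ≤ 2 ^ (50 * u + 50) * min ε 1 := mul_le_mul hnC hε' (by positivity) (by positivity)
    calc (k : ℝ) ^ 2 ≤ 2 ^ (u + 8) * 1 := by rw [mul_one]; exact h1
      _ ≤ 2 ^ (u + 8) * (2 ^ (50 * u + 50) * min ε 1) :=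
          mul_le_mul_of_nonneg_left h2 (by positivity)
      _ = 2 ^ (51 * u + 58) * min ε 1 := by ring
  have hmain := clique_bound (F.weaken (min_le_left ε 1)) t u u (51 * u + 58) (26 * u + 31) hb1
    (by omega) (by omega) D hD1 (hD3 t hKt) hD4 c rhs hD2 σ hσ' hαk hℓK ι (by omega) hε0
    (min_le_right _ _) hGE (by nlinarith) (by omega)
    (pow_num u k t _ (by omega) hku (htk.trans hku) rfl)
  -- conclusion
  have hmainR : (2 : ℝ) ^ (u * t) < 2 ^ q * (r + 1) := by exact_mod_cast hmain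
  refine le_trans ?_ hmainR.le
  have h1 : (n : ℝ) ≤ (2 : ℝ) ^ ((200 * ℓ * u : ℕ) : ℝ) := by
    rw [Real.rpow_natCast]
    have h2 : n ≤ 2 ^ (200 * ℓ * u) := by
      refine hnup.le.trans (Nat.pow_le_pow_right (by norm_num) ?_)
      have h3 : 100 * ℓ * (u + 1) ≤ 200 * ℓ * u := by nlinarith
      omega
    exact_mod_cast h2
  calc (n : ℝ) ^ ((k : ℝ) / C) ≤ ((2 : ℝ) ^ ((200 * ℓ * u : ℕ) : ℝ)) ^ ((k : ℝ) / C) :=
        Real.rpow_le_rpow hnR.le h1 (by positivity)
    _ = (2 : ℝ) ^ (((200 * ℓ * u : ℕ) : ℝ) * ((k : ℝ) / C)) := by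
        rw [← Real.rpow_mul (by norm_num)]
    _ ≤ (2 : ℝ) ^ ((u * t : ℕ) : ℝ) := by
        refine Real.rpow_le_rpow_of_exponent_le (by norm_num) ?_
        rw [mul_div_assoc', div_le_iff₀ hCR]
        have h3 : 200 * ℓ * u * k ≤ u * t * C := by
          calc 200 * ℓ * u * k ≤ 200 * ℓ * u * (2 * K * t) := Nat.mul_le_mul_left _ hkt
            _ = u * t * (400 * ℓ * K) := by ring
            _ ≤ u * t * C := Nat.mul_le_mul_left _ hC400
        exact_mod_cast h3
    _ = 2 ^ (u * t) := Real.rpow_natCast _ _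

/-- A set which is not a clique has few edges. -/
theorem edgesIn_le {n k : ℕ} (G : SimpleGraph (Fin n)) (K : Finset (Fin n)) (hK : K.card = k)
    (hne : ¬ G.IsClique K) : edgesIn G K ≤ k.choose 2 - 1 := by
  classical
  rw [SimpleGraph.isClique_iff, Set.Pairwise] at hne
  push Not at hne
  obtain ⟨a, ha, a', ha', hab, hadj⟩ := hne
  unfold edgesIn
  have h1 : (∑ u ∈ K, ∑ v ∈ K, if G.Adj u v then (1 : ℝ) else 0)
      = (((K ×ˢ K).filter fun p => G.Adj p.1 p.2).card : ℝ) := by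
    rw [← Finset.sum_product', Finset.sum_boole]
  have h2 : ((K ×ˢ K).filter fun p => G.Adj p.1 p.2) ⊆
      (K.offDiag.erase (a, a')).erase (a', a) := by
    intro p hp
    rw [Finset.mem_filter, Finset.mem_product] at hp
    rw [Finset.mem_erase, Finset.mem_erase, Finset.mem_offDiag]
    refine ⟨?_, ?_, hp.1.1, hp.1.2, hp.2.ne⟩
    · rintro rfl
      exact hadj hp.2.symm
    · rintro rfl
      exact hadj hp.2
  have h3 := Finset.card_le_card h2
  have h4 : ((K.offDiag.erase (a, a')).erase (a', a)).card = k * k - k - 1 - 1 := by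
    rw [Finset.card_erase_of_mem, Finset.card_erase_of_mem, Finset.offDiag_card, hK]
    · exact Finset.mem_offDiag.2 ⟨ha, ha', hab⟩
    · rw [Finset.mem_erase]
      refine ⟨fun h => hab (Prod.mk.inj h).2, Finset.mem_offDiag.2 ⟨ha', ha, hab.symm⟩⟩
  rw [h4] at h3
  have hk2 : 2 ≤ k := by
    rw [← hK]
    exact Finset.one_lt_card.2 ⟨a, ha, a', ha', hab⟩
  have h5 : k * 2 ≤ k * k := Nat.mul_le_mul_left _ hk2
  have h6 : k * k - k - 1 - 1 + k + 2 = k * k := by omega
  have h7 : (((K ×ˢ K).filter fun p => G.Adj p.1 p.2).card : ℝ) + k + 2 ≤ k * k := by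
    have : ((K ×ˢ K).filter fun p => G.Adj p.1 p.2).card + k + 2 ≤ k * k := by omega
    exact_mod_cast this
  rw [Nat.cast_choose_two]
  have h8 : (∑ u ∈ K, ∑ v ∈ K, if G.Adj u v then (1 : ℝ) else 0) + k + 2 ≤ k * k := by
    rw [h1]; exact h7
  linarith

/-- The trivial formulation. -/
theorem clique_upper {n k : ℕ} {α : ℝ} (hk : 0 < k) (hα : α < 1) :
    Nonempty (CliqueSDP n k 0 (n.choose k) α 1) := by
  classical
  set K : Type := {K : Finset (Fin n) // K.card = k} with hK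
  have hcard : Fintype.card K = n.choose k := by
    rw [Fintype.card_finset_len, Fintype.card_fin]
  rw [← hcard]
  set e := Fintype.equivFin K with he
  refine ⟨{ d := 0, e := 1
            A := LinearMap.pi fun _ => (Matrix.traceLinearMap (Fin (Fintype.card K)) ℝ ℝ).comp
              ((LinearMap.snd ℝ (Fin 0 → ℝ)
                (Matrix (Fin (Fintype.card K)) (Fin (Fintype.card K)) ℝ)).comp
              (LinearMap.snd ℝ (Fin 0 → ℝ) ((Fin 0 → ℝ) ×
                Matrix (Fin (Fintype.card K)) (Fin (Fintype.card K)) ℝ)))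
            c := fun _ => 1
            y := fun K0 => (fun j => j.elim0, fun j => j.elim0,
              Matrix.diagonal fun i => if (e.symm i).1 = K0 then (1 : ℝ) else 0)
            w := fun G => ∑ i : Fin (Fintype.card K), edgesIn G (e.symm i).1 •
              ((entry i i).comp ((LinearMap.snd ℝ (Fin 0 → ℝ)
                (Matrix (Fin (Fintype.card K)) (Fin (Fintype.card K)) ℝ)).comp
              (LinearMap.snd ℝ (Fin 0 → ℝ) ((Fin 0 → ℝ) ×
                Matrix (Fin (Fintype.card K)) (Fin (Fintype.card K)) ℝ))))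
            w0 := fun _ => 0
            psd := ?_
            eqn := ?_
            value := ?_
            bound := ?_ }⟩
  · intro K0 _
    refine Matrix.PosSemidef.diagonal fun i => ?_
    show (0 : ℝ) ≤ if (e.symm i).1 = K0 then (1 : ℝ) else 0
    split_ifs <;> norm_num
  · intro K0 hK0
    funext i
    simp only [LinearMap.pi_apply, LinearMap.comp_apply, LinearMap.snd_apply,
      Matrix.traceLinearMap_apply, Matrix.trace_diagonal]
    rw [Finset.sum_eq_single (e ⟨K0, hK0⟩)]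
    · simp
    · intro j _ hj
      rw [if_neg]
      intro h
      apply hj
      rw [← e.symm_apply_eq]
      exact Subtype.ext h
    · intro h
      exact absurd (Finset.mem_univ _) h
  · intro G K0 hK0
    simp only [LinearMap.sum_apply, LinearMap.smul_apply, LinearMap.comp_apply,
      LinearMap.snd_apply, entry_apply, Matrix.diagonal_apply_eq, smul_eq_mul, add_zero]
    rw [Finset.sum_eq_single (e ⟨K0, hK0⟩)]
    · simp
    · intro j _ hj
      rw [if_neg, mul_zero]
      intro h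
      apply hj
      rw [← e.symm_apply_eq]
      exact Subtype.ext h
    · intro h
      exact absurd (Finset.mem_univ _) h
  · intro G hG β f Z hZ hA
    have hs : ∑ i, Z i i = 1 := congrFun hA 0
    simp only [LinearMap.sum_apply, LinearMap.smul_apply, LinearMap.comp_apply,
      LinearMap.snd_apply, entry_apply, smul_eq_mul, add_zero]
    have hkR : (0 : ℝ) < k := by exact_mod_cast hk
    calc ∑ i, edgesIn G (e.symm i).1 * Z i i ≤ ∑ i, ((k.choose 2 : ℝ) - 1) * Z i i := by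
          refine Finset.sum_le_sum fun i _ => mul_le_mul_of_nonneg_right ?_ hZ.diag_nonneg
          refine edgesIn_le G _ (e.symm i).2 fun hcl => ?_
          have h1 := hcl.card_le_cliqueNum
          rw [(e.symm i).2] at h1
          have h2 : (k : ℝ) ≤ G.cliqueNum := by exact_mod_cast h1
          nlinarith
      _ = (k.choose 2 : ℝ) - 1 := by rw [← Finset.mul_sum, hs, mul_one]

end Pool.Agent.TH661.LRS
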